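import Pool.Agent.Lib.MP_35885f_co.App

open Finset

namespace Pool.MP_35885f

open scoped Classical

/-- From a generating set to a basis. -/
lemma basisNumber_le_of_span {V : Type} [Fintype V] (G : SimpleGraph V) (m : ℕ)
    (S : Finset (Sym2 V → ZMod 2))
    (hS : Submodule.span (ZMod 2) (S : Set (Sym2 V → ZMod 2)) = cycleSpace G)
    (hp : ∀ e ∈ G.edgeSet, ply e S ≤ m) : basisNumber G ≤ m := by
  obtain ⟨b, hb1, hb2, hb3⟩ := exists_linearIndependent (ZMod 2) (S : Set (Sym2 V → ZMod 2))
  have hfin : b.Finite := S.finite_toSet.subset hb1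
  have hcoe : (hfin.toFinset : Set (Sym2 V → ZMod 2)) = b := hfin.coe_toFinset
  refine Nat.sInf_le ⟨hfin.toFinset, ⟨?_, ?_⟩, ?_⟩
  · have h1 : ∀ x, x ∈ hfin.toFinset ↔ x ∈ b := fun x => hfin.mem_toFinset
    have h2 := hb3.comp (fun x : hfin.toFinset => (⟨x.1, (h1 x.1).1 x.2⟩ : b)) (by
      intro x y h
      simp only [Subtype.mk.injEq] at h
      exact Subtype.ext h)
    exact h2
  · rw [hcoe, hb2, hS]
  · intro e he
    refine le_trans ?_ (hp e he)
    unfold ply
    refine card_le_card (Finset.filter_subset_filter _ ?_)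
    intro x hx
    exact hb1 (hfin.mem_toFinset.1 hx)

/-- Every finite graph has a tree decomposition. -/
lemma exists_treeDecomp {V : Type} [Fintype V] (G : SimpleGraph V) :
    ∃ k, ∃ D : TreeDecomp G, ∀ x, (D.bag x).card ≤ k + 1 := by
  refine ⟨Fintype.card V, ⟨Unit, inferInstance, ⊥, ?_, fun _ => univ, ?_, ?_⟩, ?_⟩
  · exact SimpleGraph.IsTree.of_subsingleton
  · intro v
    have : Nonempty {x : Unit | v ∈ (univ : Finset V)} := ⟨⟨(), by simp⟩⟩
    have : Subsingleton {x : Unit | v ∈ (univ : Finset V)} := inferInstance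
    exact (SimpleGraph.IsTree.of_subsingleton).connected
  · intro u v _; exact ⟨(), by simp, by simp⟩
  · intro x; exact (card_le_univ _).trans (Nat.le_succ _)

theorem basisNumber_le {V : Type} [Fintype V] (G : SimpleGraph V) :
    basisNumber G ≤ 16 * (treewidth G + 1) ^ 3 := by
  obtain ⟨D, hD⟩ : treewidth G ∈ {k | ∃ D : TreeDecomp G, ∀ x, (D.bag x).card ≤ k + 1} :=
    Nat.sInf_mem (exists_treeDecomp G)
  set k := treewidth G with hk
  rcases isEmpty_or_nonempty V with hV | hV
  · refine (basisNumber_le_of_span G 0 ∅ ?_ ?_).trans (Nat.zero_le _)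
    · have : IsEmpty (Sym2 V) := by
        constructor
        intro e
        induction e using Sym2.ind with
        | _ u v => exact hV.elim u
      have : Subsingleton (Sym2 V → ZMod 2) := inferInstance
      exact Subsingleton.elim _ _
    · intro e _; simp [ply]
  · obtain ⟨S, hS1, hS2⟩ := generating G D k hD
    refine basisNumber_le_of_span G _ S hS1 fun e he => (hS2 e he).trans ?_
    obtain ⟨t, ht⟩ : ∃ t, k + 1 = t := ⟨_, rfl⟩
    rw [ht]
    have ht1 : 1 ≤ t := by omega
    obtain ⟨s, rfl⟩ : ∃ s, t = s + 1 := ⟨t - 1, by omega⟩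
    have h1 : 2 * (s + 1) - 1 = 2 * s + 1 := by omega
    rw [h1]
    nlinarith [sq_nonneg s]

end Pool.MP_35885f
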