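import Pool.Agent.Lib.MP_35885f_co.RoundLog
import Pool.Agent.Lib.MP_35885f_co.App
import Pool.Agent.Lib.MP_35885f_co.Final

/-!
# The bound `3 tw(G) + log₂ |E(G)| + 3`
-/

open Finset

namespace Pool.MP_35885f

open scoped Classical

section App

variable {V : Type} [Fintype V] [DecidableEq V]

theorem generating_log [Nonempty V] (G : SimpleGraph V) (D : TreeDecomp G) (k : ℕ)
    (hk : ∀ x, (D.bag x).card ≤ k + 1) :
    ∃ S : Finset (Sym2 V → ZMod 2), Submodule.span (ZMod 2) (S : Set (Sym2 V → ZMod 2)) =
      cycleSpace G ∧ ∀ e ∈ G.edgeSet, ply e S ≤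
        3 * k + Nat.log 2 (Nat.card G.edgeSet) + 3 := by
  obtain ⟨par, ρ, hinj, hpar, hbag⟩ := exists_rooting D
  have := D.fin
  have : Fintype D.ι := Fintype.ofFinite _
  have hne : Nonempty D.ι := D.isTree.connected.nonempty
  -- homes and ends of edges
  have hhome : ∀ e : G.edgeSet, ∃ x, ∀ v ∈ e.1, v ∈ D.bag x := by
    rintro ⟨e, he⟩
    induction e using Sym2.ind with
    | _ u v =>
      obtain ⟨x, h1, h2⟩ := D.edge u v he
      refine ⟨x, ?_⟩
      intro w hw
      rw [Sym2.mem_iff] at hw
      rcases hw with rfl | rfl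
      · exact h1
      · exact h2
  choose home hhome using hhome
  have hends : ∀ e : G.edgeSet, ∃ p : V × V, s(p.1, p.2) = e.1 := by
    rintro ⟨e, he⟩
    induction e using Sym2.ind with
    | _ u v => exact ⟨(u, v), rfl⟩
  choose en hen using hends
  have henne : ∀ e, (en e).1 ≠ (en e).2 := by
    intro e
    have : G.Adj (en e).1 (en e).2 := by
      rw [← SimpleGraph.mem_edgeSet, hen]; exact e.2
    exact this.ne
  have hen1 : ∀ e, (en e).1 ∈ D.bag (home e) := by
    intro e; apply hhome; rw [← hen]; exact Sym2.mem_mk_left _ _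
  have hen2 : ∀ e, (en e).2 ∈ D.bag (home e) := by
    intro e; apply hhome; rw [← hen]; exact Sym2.mem_mk_right _ _
  -- items
  let I : Type := G.edgeSet ⊕ {x : D.ι × V // x.2 ∈ D.bag x.1 ∧ x.2 ∈ D.bag (par x.1)}
  let e1 : I → V × D.ι := Sum.elim (fun e => ((en e).1, home e)) (fun x => (x.1.2, x.1.1))
  let e2 : I → V × D.ι := Sum.elim (fun e => ((en e).2, home e)) (fun x => (x.1.2, par x.1.1))
  let node : I → D.ι := Sum.elim home (fun x => x.1.1)
  let n := Fintype.card I
  let E0 : Fin n ≃ I := (Fintype.equivFin I).symm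
  let E : Fin n ≃ I := (Tuple.sort (fun j => ρ (node (E0 j)))).trans E0
  have hmono : Monotone (fun j => ρ (node (E j))) :=
    Tuple.monotone_sort (fun j => ρ (node (E0 j)))
  let w0 : V × D.ι := Classical.arbitrary _
  let a : ℕ → V × D.ι := fun j => if h : j < n then e1 (E ⟨j, h⟩) else w0
  let b : ℕ → V × D.ι := fun j => if h : j < n then e2 (E ⟨j, h⟩) else w0
  have ha : ∀ (j : ℕ) (h : j < n), a j = e1 (E ⟨j, h⟩) := fun j h => dif_pos h
  have hb : ∀ (j : ℕ) (h : j < n), b j = e2 (E ⟨j, h⟩) := fun j h => dif_pos h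
  -- ends lie in bags and have rank at least that of the node
  have hpar' : ∀ s, ρ s ≤ ρ (par s) := by
    intro s
    by_cases h : par s = s
    · rw [h]
    · exact (hpar s h).le
  have hI1 : ∀ it : I, (e1 it).1 ∈ D.bag (e1 it).2 ∧ ρ (node it) ≤ ρ (e1 it).2 := by
    rintro (e | x)
    · exact ⟨hen1 e, le_rfl⟩
    · exact ⟨x.2.1, le_rfl⟩
  have hI2 : ∀ it : I, (e2 it).1 ∈ D.bag (e2 it).2 ∧ ρ (node it) ≤ ρ (e2 it).2 := by
    rintro (e | x)
    · exact ⟨hen2 e, le_rfl⟩
    · exact ⟨x.2.2, hpar' _⟩
  -- hypothesis (H)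
  have H : ∀ i < n, ∀ x : V × D.ι,
      (univ.filter fun y => Active a b n i y ∧ Conn a b i x y).card ≤ 2 * (k + 1) := by
    intro i hi x
    set s0 := node (E ⟨i, hi⟩) with hs0
    obtain ⟨L, hL1, hL2⟩ := exists_label par ρ hpar (ρ s0)
    set f : V × D.ι → D.ι := fun y => if L y.2 = s0 then par s0 else L y.2 with hf
    have hLs0 : L s0 = s0 := hL1 s0 le_rfl
    have hLp : L (par s0) = par s0 := hL1 _ (hpar' s0)
    have hfib : ∀ j < i, f (a j) = f (b j) := by
      intro j hj
      have hjn : j < n := by omega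
      rw [ha j hjn, hb j hjn]
      have hle : ρ (node (E ⟨j, hjn⟩)) ≤ ρ s0 := hmono (show (⟨j, hjn⟩ : Fin n) ≤ ⟨i, hi⟩ from hj.le)
      rcases hE : E ⟨j, hjn⟩ with e | y
      · rfl
      · rw [hE] at hle
        simp only [node, Sum.elim_inr] at hle
        simp only [e1, e2, Sum.elim_inr, hf]
        rcases hle.lt_or_eq with h | h
        · rw [hL2 _ h]
        · have : y.1.1 = s0 := hinj h
          rw [this, hLs0, hLp, if_pos rfl]
          split_ifs <;> rfl
    have hsub : (univ.filter fun y => Active a b n i y ∧ Conn a b i x y) ⊆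
        (D.bag s0).image (fun v => (v, s0)) ∪ (D.bag (f x)).image (fun v => (v, f x)) := by
      intro y hy
      simp only [mem_filter, mem_univ, true_and] at hy
      obtain ⟨⟨j, hij, hjn, hyj⟩, hc⟩ := hy
      have hge : ρ s0 ≤ ρ (node (E ⟨j, hjn⟩)) := hmono (show (⟨i, hi⟩ : Fin n) ≤ ⟨j, hjn⟩ from hij)
      have hy2 : y.1 ∈ D.bag y.2 ∧ ρ s0 ≤ ρ y.2 := by
        rcases hyj with h | h
        · rw [h, ha j hjn]; exact ⟨(hI1 _).1, hge.trans (hI1 _).2⟩
        · rw [h, hb j hjn]; exact ⟨(hI2 _).1, hge.trans (hI2 _).2⟩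
      have hfx : f x = f y := hc.fiber f hfib
      have hLy : L y.2 = y.2 := hL1 _ hy2.2
      rw [mem_union, mem_image, mem_image]
      by_cases h : y.2 = s0
      · left; exact ⟨y.1, by rw [← h]; exact hy2.1, by rw [← h]⟩
      · right
        have : f x = y.2 := by rw [hfx]; simp only [hf, hLy, if_neg h]
        exact ⟨y.1, by rw [this]; exact hy2.1, by rw [this]⟩
    refine (card_le_card hsub).trans ((card_union_le _ _).trans ?_)
    have h1 := (card_image_le (s := D.bag s0) (f := fun v => (v, s0))).trans (hk s0)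
    have h2 := (card_image_le (s := D.bag (f x)) (f := fun v => (v, f x))).trans (hk (f x))
    omega
  -- the rows: the edges of G
  let R : Finset ℕ := univ.image fun e : G.edgeSet => ((E.symm (Sum.inl e) : Fin n) : ℕ)
  have hRr : R ⊆ range n := by
    intro j hj
    obtain ⟨e, -, rfl⟩ := mem_image.1 hj
    exact mem_range.2 (E.symm (Sum.inl e)).2
  have hRc : R.card ≤ Nat.card G.edgeSet := by
    rw [Nat.card_eq_fintype_card]
    exact card_image_le
  obtain ⟨B, hB, hBply⟩ := main_log H R hRr hRc
  -- vectors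
  let ψI : I → Sym2 V → ZMod 2 := Sum.elim (fun e => Pi.single e.1 1) (fun _ => 0)
  let ψ : ℕ → Sym2 V → ZMod 2 := fun j => if h : j < n then ψI (E ⟨j, h⟩) else 0
  have hψ : ∀ (j : ℕ) (h : j < n), ψ j = ψI (E ⟨j, h⟩) := fun j h => dif_pos h
  let deg : (Sym2 V → ZMod 2) → V → ZMod 2 := fun f v => ∑ w, f s(v, w)
  have hdegsingle : ∀ e : G.edgeSet, deg (Pi.single e.1 1) = dl (en e).1 + dl (en e).2 := by
    intro e
    funext v
    have h1 : ∀ w, (Pi.single e.1 1 : Sym2 V → ZMod 2) s(v, w) =
        (if v = (en e).1 ∧ w = (en e).2 then 1 else 0) +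
        (if v = (en e).2 ∧ w = (en e).1 then 1 else 0) := by
      intro w
      have hiff : s(v, w) = e.1 ↔
          (v = (en e).1 ∧ w = (en e).2) ∨ (v = (en e).2 ∧ w = (en e).1) := by
        rw [← hen e, Sym2.eq_iff]
      rw [Pi.single_apply]
      have hne := henne e
      by_cases h1 : v = (en e).1 ∧ w = (en e).2
      · have h2 : ¬ (v = (en e).2 ∧ w = (en e).1) := by
          rintro ⟨h3, -⟩; exact hne (h1.1.symm.trans h3)
        rw [if_pos (hiff.2 (Or.inl h1)), if_pos h1, if_neg h2, add_zero]
      · by_cases h2 : v = (en e).2 ∧ w = (en e).1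
        · rw [if_pos (hiff.2 (Or.inr h2)), if_neg h1, if_pos h2, zero_add]
        · rw [if_neg (fun h => by rcases hiff.1 h with h | h; exacts [h1 h, h2 h]),
            if_neg h1, if_neg h2, add_zero]
    simp only [deg, h1, Finset.sum_add_distrib, Pi.add_apply, dl, Pi.single_apply]
    congr 1
    · by_cases hv : v = (en e).1 <;> simp [hv]
    · by_cases hv : v = (en e).2 <;> simp [hv]
  -- projecting the boundary
  have hproj : ∀ j < n, ∀ v, deg (ψ j) v = ∑ s, (dl (a j) + dl (b j)) (v, s) := by
    intro j hj v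
    have hdl : ∀ y : V × D.ι, ∑ s, dl y (v, s) = dl y.1 v := by
      intro y
      simp only [dl, Pi.single_apply]
      by_cases hv : v = y.1
      · rw [if_pos hv, Finset.sum_eq_single y.2]
        · rw [if_pos (show (v, y.2) = y from Prod.ext hv rfl)]
        · intro s _ hs; rw [if_neg]; rintro rfl; exact hs rfl
        · intro h; exact absurd (mem_univ _) h
      · rw [if_neg hv]
        refine Finset.sum_eq_zero fun s _ => ?_
        rw [if_neg]; rintro rfl; exact hv rfl
    simp only [Pi.add_apply, Finset.sum_add_distrib]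
    rw [hdl, hdl, hψ j hj, ha j hj, hb j hj]
    rcases hE : E ⟨j, hj⟩ with e | y
    · simp only [ψI, e1, e2, Sum.elim_inl]
      rw [hdegsingle]; rfl
    · simp only [ψI, e1, e2, Sum.elim_inr, deg, Pi.zero_apply, sum_const_zero]
      exact (CharTwo.add_self_eq_zero _).symm
  have hcyc : ∀ z ⊆ range n, bd a b z = 0 → ∑ j ∈ z, ψ j ∈ cycleSpace G := by
    intro z hz hbz
    constructor
    · intro e he
      rw [Finset.sum_apply]
      refine Finset.sum_eq_zero fun j hj => ?_
      have hjn : j < n := by simpa using hz hj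
      rw [hψ j hjn]
      rcases hE : E ⟨j, hjn⟩ with e' | y
      · simp only [ψI, Sum.elim_inl]
        rw [Pi.single_apply, if_neg]; rintro rfl; exact he e'.2
      · rfl
    · intro v
      have h1 : ∑ w, (∑ j ∈ z, ψ j) s(v, w) = ∑ j ∈ z, deg (ψ j) v := by
        simp only [Finset.sum_apply, deg]
        exact Finset.sum_comm
      have h2 : ∑ j ∈ z, deg (ψ j) v = ∑ s, bd a b z (v, s) := by
        calc ∑ j ∈ z, deg (ψ j) v = ∑ j ∈ z, ∑ s, (dl (a j) + dl (b j)) (v, s) :=
              Finset.sum_congr rfl fun j hj => hproj j (by simpa using hz hj) v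
          _ = ∑ s, ∑ j ∈ z, (dl (a j) + dl (b j)) (v, s) := Finset.sum_comm
          _ = ∑ s, bd a b z (v, s) := by simp only [bd, Finset.sum_apply]
      rw [h1, h2, hbz]; simp
  -- realizable pairs
  let Z : Submodule (ZMod 2) ((V × D.ι → ZMod 2) × (Sym2 V → ZMod 2)) :=
    { carrier := {p | ∃ z ⊆ range n, p = (bd a b z, ∑ j ∈ z, ψ j)}
      zero_mem' := ⟨∅, by simp, by rw [bd_empty, sum_empty]; rfl⟩
      add_mem' := by
        rintro p q ⟨z, hz, rfl⟩ ⟨z', hz', rfl⟩
        refine ⟨symmDiff z z', symmDiff_subset hz hz', ?_⟩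
        rw [bd_symmDiff, sum_symmDiff (fun x => ZModModule.add_self x)]; rfl
      smul_mem' := by
        rintro c p ⟨z, hz, rfl⟩
        fin_cases c
        · refine ⟨∅, by simp, ?_⟩
          rw [bd_empty, sum_empty]
          exact zero_smul _ _
        · refine ⟨z, hz, ?_⟩
          exact one_smul _ _ }
  have hZmem : ∀ j < n, (dl (a j) + dl (b j), ψ j) ∈ Z := by
    intro j hj
    exact ⟨{j}, by simpa using hj, by rw [bd_singleton, sum_singleton]⟩
  -- tops
  have htop : ∀ v : V, ∃ s, v ∈ D.bag s ∧ ∀ s', v ∈ D.bag s' → ρ s' ≤ ρ s := by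
    intro v
    obtain ⟨⟨s, hs⟩⟩ := (D.conn v).nonempty
    obtain ⟨s', hs', hmax⟩ := Finset.exists_max_image (univ.filter fun s => v ∈ D.bag s) ρ
      ⟨s, by simpa using hs⟩
    refine ⟨s', by simpa using hs', fun s'' hs'' => hmax s'' (by simpa using hs'')⟩
  choose top htop1 htop2 using htop
  have hvert : ∀ v s, v ∈ D.bag s → (dl (v, s) + dl (v, top v), (0 : Sym2 V → ZMod 2)) ∈ Z := by
    intro v
    have : ∀ N s, ρ (top v) - ρ s ≤ N → v ∈ D.bag s →
        (dl (v, s) + dl (v, top v), (0 : Sym2 V → ZMod 2)) ∈ Z := by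
      intro N
      induction N with
      | zero =>
        intro s hN hs
        have h1 := htop2 v s hs
        have : s = top v := hinj (by omega)
        rw [this, self_add_self]
        exact Z.zero_mem
      | succ N ih =>
        intro s hN hs
        have h1 := htop2 v s hs
        by_cases hst : s = top v
        · rw [hst, self_add_self]; exact Z.zero_mem
        · have hlt : ρ s < ρ (top v) := lt_of_le_of_ne h1 (fun h => hst (hinj h))
          obtain ⟨h2, h3⟩ := hbag v s (top v) hs (htop1 v) hlt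
          have h4 := hpar s h3
          have h5 := ih (par s) (by omega) h2
          set j := E.symm (Sum.inr ⟨(s, v), hs, h2⟩) with hj
          have h6 := hZmem j j.2
          rw [ha j j.2, hb j j.2, hψ j j.2] at h6
          have h7 : E ⟨(j : ℕ), j.2⟩ = Sum.inr ⟨(s, v), hs, h2⟩ := by
            rw [Fin.eta, hj, Equiv.apply_symm_apply]
          rw [h7] at h6
          simp only [e1, e2, ψI, Sum.elim_inr] at h6
          have h8 := Z.add_mem h6 h5
          rw [Prod.mk_add_mk, add_cancel_mid, add_zero] at h8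
          exact h8
    intro s hs
    exact this _ s le_rfl hs
  let Tm : (V → ZMod 2) → (V × D.ι → ZMod 2) := fun g => ∑ v, g v • dl (v, top v)
  have hTdl : ∀ v, Tm (dl v) = dl (v, top v) := by
    intro v
    simp only [Tm]
    rw [Finset.sum_eq_single v]
    · rw [dl_self, one_smul]
    · intro w _ hw; rw [dl_ne hw, zero_smul]
    · intro h; exact absurd (mem_univ _) h
  have hTadd : ∀ g g', Tm (g + g') = Tm g + Tm g' := by
    intro g g'
    simp only [Tm, Pi.add_apply, add_smul, Finset.sum_add_distrib]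
  have hedge : ∀ e : G.edgeSet, (Tm (deg (Pi.single e.1 1)), (Pi.single e.1 1 : Sym2 V → ZMod 2))
      ∈ Z := by
    intro e
    rw [hdegsingle, hTadd, hTdl, hTdl]
    set j := E.symm (Sum.inl e) with hj
    have h6 := hZmem j j.2
    rw [ha j j.2, hb j j.2, hψ j j.2] at h6
    have h7 : E ⟨(j : ℕ), j.2⟩ = Sum.inl e := by
      rw [Fin.eta, hj, Equiv.apply_symm_apply]
    rw [h7] at h6
    simp only [e1, e2, ψI, Sum.elim_inl] at h6
    have h8 := Z.add_mem (Z.add_mem h6 (hvert _ _ (hen1 e))) (hvert _ _ (hen2 e))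
    rw [Prod.mk_add_mk, Prod.mk_add_mk, add_zero, add_zero] at h8
    have h9 : dl ((en e).1, home e) + dl ((en e).2, home e) +
        (dl ((en e).1, home e) + dl ((en e).1, top (en e).1)) +
        (dl ((en e).2, home e) + dl ((en e).2, top (en e).2)) =
        dl ((en e).1, top (en e).1) + dl ((en e).2, top (en e).2) := by
      calc _ = (dl ((en e).1, home e) + dl ((en e).1, home e)) +
            (dl ((en e).2, home e) + dl ((en e).2, home e)) +
            (dl ((en e).1, top (en e).1) + dl ((en e).2, top (en e).2)) := by abel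
        _ = _ := by rw [self_add_self, self_add_self, zero_add, zero_add]
    rw [h9] at h8
    exact h8
  have hsurj : ∀ c ∈ cycleSpace G, ∃ z ⊆ range n, bd a b z = 0 ∧ ∑ j ∈ z, ψ j = c := by
    intro c hc
    have h1 : (∑ e : G.edgeSet, c e.1 • (Tm (deg (Pi.single e.1 1)),
        (Pi.single e.1 1 : Sym2 V → ZMod 2))) ∈ Z :=
      Submodule.sum_mem _ fun e _ => Z.smul_mem _ (hedge e)
    have h2 : ∑ e : G.edgeSet, c e.1 • (Pi.single e.1 1 : Sym2 V → ZMod 2) = c := by
      funext x
      rw [Finset.sum_apply]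
      by_cases hx : x ∈ G.edgeSet
      · rw [Finset.sum_eq_single ⟨x, hx⟩]
        · simp
        · intro e _ he
          have : x ≠ e.1 := fun h => he (Subtype.ext h.symm)
          simp [this]
        · intro h; exact absurd (mem_univ _) h
      · rw [hc.1 x hx]
        refine Finset.sum_eq_zero fun e _ => ?_
        have : x ≠ e.1 := fun h => hx (h ▸ e.2)
        simp [this]
    have h3 : ∑ e : G.edgeSet, c e.1 • Tm (deg (Pi.single e.1 1)) = 0 := by
      have h4 : ∀ e : G.edgeSet, c e.1 • Tm (deg (Pi.single e.1 1)) =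
          ∑ v, (c e.1 * deg (Pi.single e.1 1) v) • dl (v, top v) := by
        intro e
        simp only [Tm, Finset.smul_sum, smul_smul]
      rw [Finset.sum_congr rfl fun e _ => h4 e, Finset.sum_comm]
      refine Finset.sum_eq_zero fun v _ => ?_
      rw [← Finset.sum_smul]
      have h5 : ∑ e : G.edgeSet, c e.1 * deg (Pi.single e.1 1) v = 0 := by
        have h6 : ∑ e : G.edgeSet, c e.1 * deg (Pi.single e.1 1) v =
            ∑ w, (∑ e : G.edgeSet, c e.1 • (Pi.single e.1 1 : Sym2 V → ZMod 2)) s(v, w) := by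
          simp only [deg, Finset.mul_sum, Finset.sum_apply, Pi.smul_apply, smul_eq_mul]
          exact Finset.sum_comm
        rw [h6, h2]
        exact hc.2 v
      rw [h5, zero_smul]
    obtain ⟨z, hz, hz2⟩ := h1
    refine ⟨z, hz, ?_, ?_⟩
    · have := congrArg Prod.fst hz2
      rw [Prod.fst_sum] at this
      simp only [Prod.smul_fst] at this
      rw [h3] at this
      exact this.symm
    · have := congrArg Prod.snd hz2
      rw [Prod.snd_sum] at this
      simp only [Prod.smul_snd] at this
      rw [h2] at this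
      exact this.symm
  -- the generating set
  set Ψ : ℕ → Sym2 V → ZMod 2 := fun i => ∑ j ∈ insert i (B i), ψ j with hΨ
  refine ⟨(evs a b n).image Ψ, ?_, ?_⟩
  · rw [Finset.coe_image]
    apply le_antisymm
    · rw [Submodule.span_le]
      rintro _ ⟨i, hi, rfl⟩
      have hi' := mem_evs.1 (Finset.mem_coe.1 hi)
      have hBi := hB i hi
      have hiB : i ∉ B i := fun h => by simpa using hBi.1 h
      refine hcyc _ ?_ ?_
      · intro j hj
        rw [mem_insert] at hj
        rw [mem_range]
        rcases hj with rfl | hj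
        · exact hi'.1
        · have := hBi.1 hj; rw [mem_range] at this; omega
      · unfold bd
        rw [sum_insert hiB]
        have := hBi.2
        unfold bd at this
        rw [this, self_add_self]
    · intro c hc
      obtain ⟨z, hz, hbz, rfl⟩ := hsurj c hc
      exact gen ψ B hB n le_rfl z hz hbz
  · intro e he
    refine (ply_le_of_image Ψ e).trans ?_
    set j0 := E.symm (Sum.inl ⟨e, he⟩) with hj0
    have h1 : ((evs a b n).filter fun i => Ψ i e ≠ 0) ⊆
        insert (j0 : ℕ) ((evs a b n).filter fun i => (j0 : ℕ) ∈ B i) := by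
      intro i hi
      rw [mem_filter] at hi
      rw [mem_insert, mem_filter]
      by_contra hcon
      push Not at hcon
      apply hi.2
      have hBi := hB i hi.1
      have hi' := mem_evs.1 hi.1
      simp only [hΨ]
      rw [Finset.sum_apply]
      refine Finset.sum_eq_zero fun j hj => ?_
      have hjn : j < n := by
        rw [mem_insert] at hj
        rcases hj with rfl | hj
        · exact hi'.1
        · have := hBi.1 hj; rw [mem_range] at this; omega
      have hjj : j ≠ j0 := by
        rintro rfl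
        rw [mem_insert] at hj
        rcases hj with h | h
        · exact hcon.1 h.symm
        · exact hcon.2 hi.1 h
      rw [hψ j hjn]
      rcases hE : E ⟨j, hjn⟩ with e' | y
      · simp only [ψI, Sum.elim_inl]
        rw [Pi.single_apply, if_neg]
        rintro rfl
        apply hjj
        have : (⟨j, hjn⟩ : Fin n) = j0 := by rw [hj0, ← hE, Equiv.symm_apply_apply]
        rw [← this]
      · rfl
    refine (card_le_card h1).trans ((card_insert_le _ _).trans ?_)
    have := hBply j0 (mem_image.2 ⟨⟨e, he⟩, mem_univ _, rfl⟩)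
    omega


end App

theorem basisNumber_le_log {V : Type} [Fintype V] (G : SimpleGraph V) :
    basisNumber G ≤ 3 * treewidth G + Nat.log 2 (Nat.card G.edgeSet) + 3 := by
  obtain ⟨D, hD⟩ : treewidth G ∈ {k | ∃ D : TreeDecomp G, ∀ x, (D.bag x).card ≤ k + 1} :=
    Nat.sInf_mem (exists_treeDecomp G)
  rcases isEmpty_or_nonempty V with hV | hV
  · refine (basisNumber_le_of_span G 0 ∅ ?_ ?_).trans (Nat.zero_le _)
    · have : IsEmpty (Sym2 V) := by
        constructor
        intro e
        induction e using Sym2.ind with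
        | _ u v => exact hV.elim u
      have : Subsingleton (Sym2 V → ZMod 2) := inferInstance
      exact Subsingleton.elim _ _
    · intro e _; simp [ply]
  · obtain ⟨S, hS1, hS2⟩ := generating_log G D _ hD
    exact basisNumber_le_of_span G _ S hS1 hS2

end Pool.MP_35885f
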