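import Mathlib

/-!
# Definitions for MP_35885f_co: cycle space, basis number, treewidth
-/

namespace Pool.MP_35885f

/-- The cycle space of a finite simple graph `G` over the field with two elements: a vector
assigns a coefficient to each unordered pair of vertices; it must vanish off the edges of `G`,
and every vertex must have even degree (the coefficients of the pairs containing it sum to 0). -/
def cycleSpace {V : Type} [Fintype V] (G : SimpleGraph V) :
    Submodule (ZMod 2) (Sym2 V → ZMod 2) where
  carrier := {f | (∀ e, e ∉ G.edgeSet → f e = 0) ∧ ∀ v, ∑ w, f s(v, w) = 0}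
  zero_mem' := by simp
  add_mem' := by
    rintro f g ⟨hf1, hf2⟩ ⟨hg1, hg2⟩
    refine ⟨fun e he => ?_, fun v => ?_⟩
    · rw [Pi.add_apply, hf1 e he, hg1 e he, add_zero]
    · simp only [Pi.add_apply, Finset.sum_add_distrib]
      rw [hf2 v, hg2 v, add_zero]
  smul_mem' := by
    rintro c f ⟨hf1, hf2⟩
    refine ⟨fun e he => ?_, fun v => ?_⟩
    · rw [Pi.smul_apply, hf1 e he, smul_zero]
    · simp only [Pi.smul_apply, ← Finset.smul_sum]
      rw [hf2 v, smul_zero]

/-- `B` is a basis of the cycle space of `G`. -/
def IsCycleBasis {V : Type} [Fintype V] (G : SimpleGraph V)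
    (B : Finset (Sym2 V → ZMod 2)) : Prop :=
  LinearIndependent (ZMod 2) (fun x : B => (x : Sym2 V → ZMod 2)) ∧
    Submodule.span (ZMod 2) (B : Set (Sym2 V → ZMod 2)) = cycleSpace G

open scoped Classical in
/-- The ply of an edge `e` in a family `B`: the number of members of `B` containing `e`. -/
noncomputable def ply {V : Type} (e : Sym2 V) (B : Finset (Sym2 V → ZMod 2)) : ℕ :=
  (B.filter fun x => x e ≠ 0).card

/-- The basis number: the least `m` such that some cycle basis has ply at most `m` at every
edge. -/
noncomputable def basisNumber {V : Type} [Fintype V] (G : SimpleGraph V) : ℕ :=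
  sInf {m | ∃ B : Finset (Sym2 V → ZMod 2), IsCycleBasis G B ∧ ∀ e ∈ G.edgeSet, ply e B ≤ m}

/-- A tree decomposition of `G`: a finite tree `T` and a bag for every node of `T`, such that the
nodes whose bags contain a given vertex induce a nonempty connected subgraph of `T`, and the two
ends of every edge of `G` lie in a common bag. -/
structure TreeDecomp {V : Type} (G : SimpleGraph V) where
  ι : Type
  fin : Finite ι
  T : SimpleGraph ι
  isTree : T.IsTree
  bag : ι → Finset V
  conn : ∀ v, (T.induce {x | v ∈ bag x}).Connected
  edge : ∀ u v, G.Adj u v → ∃ x, u ∈ bag x ∧ v ∈ bag x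

/-- The treewidth of `G`: the least `k` such that `G` has a tree decomposition all of whose bags
have at most `k + 1` vertices. -/
noncomputable def treewidth {V : Type} (G : SimpleGraph V) : ℕ :=
  sInf {k | ∃ D : TreeDecomp G, ∀ x, (D.bag x).card ≤ k + 1}

end Pool.MP_35885f
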