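import Pool.Agent.Lib.MP_35885f_co.Joins

open Finset

namespace Pool.MP_35885f

open scoped Classical

section Forest

variable {W : Type} [DecidableEq W] {a b : ℕ → W}

/-- `x` is an end of one of the edges `i..m-1`. -/
def Active (a b : ℕ → W) (m i : ℕ) (x : W) : Prop := ∃ j, i ≤ j ∧ j < m ∧ (x = a j ∨ x = b j)

omit [DecidableEq W] in
lemma Active.mono {m i i' : ℕ} (hi : i ≤ i') {x : W} (h : Active a b m i' x) :
    Active a b m i x := by
  obtain ⟨j, h1, h2, h3⟩ := h; exact ⟨j, hi.trans h1, h2, h3⟩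

omit [DecidableEq W] in
lemma active_a {m i : ℕ} (hi : i < m) : Active a b m i (a i) := ⟨i, le_rfl, hi, Or.inl rfl⟩

omit [DecidableEq W] in
lemma active_b {m i : ℕ} (hi : i < m) : Active a b m i (b i) := ⟨i, le_rfl, hi, Or.inr rfl⟩

/-- `F` joins all pairs of active vertices joined by the first `i` edges. -/
def Spans (a b : ℕ → W) (m i : ℕ) (F : Finset ℕ) : Prop :=
  ∀ x y, Active a b m i x → Active a b m i y → Conn a b i x y → ∃ z ⊆ F, bd a b z = dl x + dl y

/-- No nonempty subset with empty boundary. -/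
def Acyc (a b : ℕ → W) (F : Finset ℕ) : Prop := ∀ c ⊆ F, bd a b c = 0 → c = ∅

lemma Acyc.uniq {F z z' : Finset ℕ} (hF : Acyc a b F) (h : z ⊆ F) (h' : z' ⊆ F)
    (e : bd a b z = bd a b z') : z = z' := by
  have := hF (symmDiff z z') (symmDiff_subset h h') (by rw [bd_symmDiff, e, self_add_self])
  exact symmDiff_eq_bot.1 this

lemma step_ab {z : Finset ℕ} {o : W} {j : ℕ} (hb : bd a b z = dl o + dl (a j)) :
    bd a b (symmDiff z {j}) = dl o + dl (b j) := by
  rw [bd_symmDiff, hb, bd_singleton, add_cancel_mid]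

lemma step_ba {z : Finset ℕ} {o : W} {j : ℕ} (hb : bd a b z = dl o + dl (b j)) :
    bd a b (symmDiff z {j}) = dl o + dl (a j) := by
  rw [bd_symmDiff, hb, bd_singleton, add_comm (dl (a j)), add_cancel_mid]

variable [Fintype W]

/-- Two edges of a path in a forest cannot be separated in both ways. -/
lemma no_cross {F : Finset ℕ} (hF : Acyc a b F) {o x y w : W} {zx zy zw : Finset ℕ}
    (hx : zx ⊆ F) (bx : bd a b zx = dl o + dl x)
    (hy : zy ⊆ F) (by' : bd a b zy = dl o + dl y)
    (hw : zw ⊆ F) (bw : bd a b zw = dl o + dl w) {e e' : ℕ}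
    (h1 : e ∉ zx) (h2 : e' ∈ zx) (h3 : e ∈ zy) (h4 : e' ∉ zy) (h5 : e ∈ zw) (h6 : e' ∈ zw) :
    False := by
  have hee : e ≠ e' := fun h => h1 (h ▸ h2)
  set C : Prop → Prop → W → Prop := fun p q v =>
    ∃ z, z ⊆ F ∧ bd a b z = dl o + dl v ∧ (e ∈ z ↔ p) ∧ (e' ∈ z ↔ q) with hC
  have u1 : ∀ p q p' q' v, C p q v → C p' q' v → (p ↔ p') ∧ (q ↔ q') := by
    rintro p q p' q' v ⟨z, k1, k2, k3, k4⟩ ⟨z', k1', k2', k3', k4'⟩
    have := hF.uniq k1 k1' (k2.trans k2'.symm)
    subst this
    exact ⟨k3.symm.trans k3', k4.symm.trans k4'⟩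
  have u2 : ∀ p q j, j ∈ F → j ≠ e → j ≠ e' → (C p q (a j) ↔ C p q (b j)) := by
    intro p q j hj je je'
    constructor
    · rintro ⟨z, k1, k2, k3, k4⟩
      refine ⟨symmDiff z {j}, symmDiff_subset k1 (by simpa using hj), step_ab k2, ?_, ?_⟩
      · rw [← k3, Finset.mem_symmDiff]; simp [Ne.symm je]
      · rw [← k4, Finset.mem_symmDiff]; simp [Ne.symm je']
    · rintro ⟨z, k1, k2, k3, k4⟩
      refine ⟨symmDiff z {j}, symmDiff_subset k1 (by simpa using hj), step_ba k2, ?_, ?_⟩
      · rw [← k3, Finset.mem_symmDiff]; simp [Ne.symm je]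
      · rw [← k4, Finset.mem_symmDiff]; simp [Ne.symm je']
  have heF : e ∈ F := hy h3
  have he'F : e' ∈ F := hx h2
  have u3 : ∀ p q, C p q (a e) → C (¬ p) q (b e) := by
    rintro p q ⟨z, k1, k2, k3, k4⟩
    refine ⟨symmDiff z {e}, symmDiff_subset k1 (by simpa using heF), step_ab k2, ?_, ?_⟩
    · rw [← k3, Finset.mem_symmDiff]; simp
    · rw [← k4, Finset.mem_symmDiff]; simp [Ne.symm hee]
  have u3' : ∀ p q, C p q (b e) → C (¬ p) q (a e) := by
    rintro p q ⟨z, k1, k2, k3, k4⟩
    refine ⟨symmDiff z {e}, symmDiff_subset k1 (by simpa using heF), step_ba k2, ?_, ?_⟩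
    · rw [← k3, Finset.mem_symmDiff]; simp
    · rw [← k4, Finset.mem_symmDiff]; simp [Ne.symm hee]
  have u4 : ∀ p q, C p q (a e') → C p (¬ q) (b e') := by
    rintro p q ⟨z, k1, k2, k3, k4⟩
    refine ⟨symmDiff z {e'}, symmDiff_subset k1 (by simpa using he'F), step_ab k2, ?_, ?_⟩
    · rw [← k3, Finset.mem_symmDiff]; simp [hee]
    · rw [← k4, Finset.mem_symmDiff]; simp
  have u4' : ∀ p q, C p q (b e') → C p (¬ q) (a e') := by
    rintro p q ⟨z, k1, k2, k3, k4⟩
    refine ⟨symmDiff z {e'}, symmDiff_subset k1 (by simpa using he'F), step_ba k2, ?_, ?_⟩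
    · rw [← k3, Finset.mem_symmDiff]; simp [hee]
    · rw [← k4, Finset.mem_symmDiff]; simp
  have co : C False False o := ⟨∅, by simp, by rw [bd_empty, self_add_self], by simp, by simp⟩
  have cx : C False True x := ⟨zx, hx, bx, by simp [h1], by simp [h2]⟩
  have cy : C True False y := ⟨zy, hy, by', by simp [h3], by simp [h4]⟩
  have cw : C True True w := ⟨zw, hw, bw, by simp [h5], by simp [h6]⟩
  -- the first set
  have s1 : ¬ C True True (a e') ∧ ¬ C True True (b e') := by
    have key := sum_bd (a := a) (b := b) zx (univ.filter fun v => C False True v)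
    rw [bx] at key
    simp only [Pi.add_apply, Finset.sum_add_distrib (f := fun v => dl o v), sum_dl, mem_filter,
      mem_univ, true_and] at key
    have no : ¬ C False True o := fun h => by have := u1 _ _ _ _ _ co h; tauto
    rw [if_neg no, if_pos cx, Finset.sum_eq_single_of_mem e' h2 (by
      intro j hj hje
      have hje2 : j ≠ e := fun h => h1 (h ▸ hj)
      have := u2 False True j (hx hj) hje2 hje
      by_cases hh : C False True (a j)
      · rw [if_pos hh, if_pos (this.1 hh)]; decide
      · rw [if_neg hh, if_neg (fun h => hh (this.2 h))]; decide)] at key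
    by_cases ha : C False True (a e')
    · refine ⟨fun h => by have := u1 _ _ _ _ _ ha h; tauto, fun h => ?_⟩
      have := u1 _ _ _ _ _ (u4 _ _ ha) h; tauto
    · by_cases hb : C False True (b e')
      · refine ⟨fun h => ?_, fun h => by have := u1 _ _ _ _ _ hb h; tauto⟩
        have := u1 _ _ _ _ _ (u4' _ _ hb) h; tauto
      · rw [if_neg ha, if_neg hb] at key
        simp at key
  have s2 : ¬ C True True (a e) ∧ ¬ C True True (b e) := by
    have key := sum_bd (a := a) (b := b) zy (univ.filter fun v => C True False v)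
    rw [by'] at key
    simp only [Pi.add_apply, Finset.sum_add_distrib (f := fun v => dl o v), sum_dl, mem_filter,
      mem_univ, true_and] at key
    have no : ¬ C True False o := fun h => by have := u1 _ _ _ _ _ co h; tauto
    rw [if_neg no, if_pos cy, Finset.sum_eq_single_of_mem e h3 (by
      intro j hj hje
      have hje2 : j ≠ e' := fun h => h4 (h ▸ hj)
      have := u2 True False j (hy hj) hje hje2
      by_cases hh : C True False (a j)
      · rw [if_pos hh, if_pos (this.1 hh)]; decide
      · rw [if_neg hh, if_neg (fun h => hh (this.2 h))]; decide)] at key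
    by_cases ha : C True False (a e)
    · refine ⟨fun h => by have := u1 _ _ _ _ _ ha h; tauto, fun h => ?_⟩
      have := u1 _ _ _ _ _ (u3 _ _ ha) h; tauto
    · by_cases hb : C True False (b e)
      · refine ⟨fun h => ?_, fun h => by have := u1 _ _ _ _ _ hb h; tauto⟩
        have := u1 _ _ _ _ _ (u3' _ _ hb) h; tauto
      · rw [if_neg ha, if_neg hb] at key
        simp at key
  have key := sum_bd (a := a) (b := b) zw (univ.filter fun v => C True True v)
  rw [bw] at key
  simp only [Pi.add_apply, Finset.sum_add_distrib (f := fun v => dl o v), sum_dl, mem_filter,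
    mem_univ, true_and] at key
  have no : ¬ C True True o := fun h => by have := u1 _ _ _ _ _ co h; tauto
  rw [if_neg no, if_pos cw, Finset.sum_eq_zero (by
    intro j hj
    by_cases he : j = e
    · subst he; rw [if_neg s2.1, if_neg s2.2]; decide
    by_cases he' : j = e'
    · subst he'; rw [if_neg s1.1, if_neg s1.2]; decide
    have := u2 True True j (hw hj) he he'
    by_cases hh : C True True (a j)
    · rw [if_pos hh, if_pos (this.1 hh)]; decide
    · rw [if_neg hh, if_neg (fun h => hh (this.2 h))]; decide)] at key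
  simp at key

omit [Fintype W] in
/-- Restriction of an edge set to a closed vertex set. -/
lemma bd_restrict {z : Finset ℕ} {R : W → Prop} (h : ∀ j ∈ z, (R (a j) ↔ R (b j))) (v : W) :
    bd a b (z.filter fun j => R (a j)) v = if R v then bd a b z v else 0 := by
  by_cases hv : R v
  · rw [if_pos hv]
    have h1 : bd a b z = bd a b (z.filter fun j => R (a j)) +
        bd a b (z.filter fun j => ¬ R (a j)) :=
      (Finset.sum_filter_add_sum_filter_not z (fun j => R (a j)) _).symm
    rw [h1, Pi.add_apply]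
    have h2 : bd a b (z.filter fun j => ¬ R (a j)) v = 0 := by
      simp only [bd, Finset.sum_apply, Pi.add_apply]
      refine Finset.sum_eq_zero fun j hj => ?_
      rw [mem_filter] at hj
      have k1 : v ≠ a j := by rintro rfl; exact hj.2 hv
      have k2 : v ≠ b j := by rintro rfl; exact hj.2 ((h j hj.1).2 hv)
      rw [dl_ne k1, dl_ne k2, add_zero]
    rw [h2, add_zero]
  · rw [if_neg hv]
    simp only [bd, Finset.sum_apply, Pi.add_apply]
    refine Finset.sum_eq_zero fun j hj => ?_
    rw [mem_filter] at hj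
    have k1 : v ≠ a j := by rintro rfl; exact hv hj.2
    have k2 : v ≠ b j := by rintro rfl; exact hv ((h j hj.1).1 hj.2)
    rw [dl_ne k1, dl_ne k2, add_zero]

/-- Dropping a heaviest class of a forest path. -/
lemma drop_class {m i t : ℕ} {F z0 : Finset ℕ} (hF : Acyc a b F) (hFr : F ⊆ range i)
    (hS : Spans a b m i F) (hi : i < m) (hz0 : z0 ⊆ F) (bz0 : bd a b z0 = dl (a i) + dl (b i))
    (hX : (univ.filter fun y => Active a b m i y ∧ Conn a b i (a i) y).card ≤ t)
    (w : ℕ → ℝ) :
    ∃ σ ⊆ z0, ∑ e ∈ z0, w e ≤ ((t : ℝ) - 1) * ∑ e ∈ σ, w e ∧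
      Spans a b m (i + 1) (insert i (F \ σ)) := by
  set X := univ.filter fun y => Active a b m i y ∧ Conn a b i (a i) y with hXdef
  have hiF : i ∉ F := fun h => by simpa using hFr h
  have haX : a i ∈ X := by
    simp only [hXdef, mem_filter, mem_univ, true_and]; exact ⟨active_a hi, Conn.refl _ _⟩
  have hconn : Conn a b i (a i) (b i) := ⟨z0, hz0.trans hFr, bz0⟩
  have hbX : b i ∈ X := by
    simp only [hXdef, mem_filter, mem_univ, true_and]; exact ⟨active_b hi, hconn⟩
  -- joins from a i
  have hJ : ∀ x : W, ∃ z : Finset ℕ, x ∈ X → (z ⊆ F ∧ bd a b z = dl (a i) + dl x) := by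
    intro x
    by_cases hx : x ∈ X
    · have hx' := hx
      simp only [hXdef, mem_filter, mem_univ, true_and] at hx'
      obtain ⟨z, h1, h2⟩ := hS (a i) x (active_a hi) hx'.1 hx'.2
      exact ⟨z, fun _ => ⟨h1, h2⟩⟩
    · exact ⟨∅, fun h => absurd h hx⟩
  choose J hJ using hJ
  have hJa : J (a i) = ∅ :=
    hF.uniq (hJ _ haX).1 (by simp) (by rw [(hJ _ haX).2, bd_empty, self_add_self])
  have hJb : J (b i) = z0 := hF.uniq (hJ _ hbX).1 hz0 (by rw [(hJ _ hbX).2, bz0])
  set S : ℕ → Finset W := fun e => X.filter fun x => e ∉ J x with hSdef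
  have hSa : ∀ e, a i ∈ S e := by
    intro e; simp only [hSdef, mem_filter]; exact ⟨haX, by simp [hJa]⟩
  have hSb : ∀ e ∈ z0, b i ∉ S e := by
    intro e he; simp only [hSdef, mem_filter]; rintro ⟨_, h⟩; rw [hJb] at h; exact h he
  have hchain : ∀ e ∈ z0, ∀ e' ∈ z0, S e ⊆ S e' ∨ S e' ⊆ S e := by
    intro e he e' he'
    by_contra hcon
    push Not at hcon
    obtain ⟨h1, h2⟩ := hcon
    obtain ⟨x, hx1, hx2⟩ := Finset.not_subset.1 h1
    obtain ⟨y, hy1, hy2⟩ := Finset.not_subset.1 h2
    simp only [hSdef, mem_filter, not_and, not_not] at hx1 hx2 hy1 hy2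
    exact no_cross hF (hJ x hx1.1).1 (hJ x hx1.1).2 (hJ y hy1.1).1 (hJ y hy1.1).2 hz0 bz0
      (e := e) (e' := e') hx1.2 (hx2 hx1.1) (hy2 hy1.1) hy1.2 he he'
  have hcard : ∀ e ∈ z0, ∀ e' ∈ z0, (S e).card = (S e').card → S e = S e' := by
    intro e he e' he' hc
    rcases hchain e he e' he' with h | h
    · exact Finset.eq_of_subset_of_card_le h hc.ge
    · exact (Finset.eq_of_subset_of_card_le h hc.le).symm
  -- it suffices to remove one class
  have main : ∀ n : ℕ, Spans a b m (i + 1) (insert i (F \ z0.filter fun e => (S e).card = n)) := by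
    intro n x y hx hy hxy
    set σ := z0.filter fun e => (S e).card = n with hσ
    have hσz : σ ⊆ z0 := Finset.filter_subset _ _
    have hx' := hx.mono (Nat.le_succ i)
    have hy' := hy.mono (Nat.le_succ i)
    have hxy' : Conn a b i x y := by
      obtain ⟨z, hz1, hz2⟩ := hxy
      by_cases hiz : i ∈ z
      · refine ⟨symmDiff (symmDiff z {i}) z0, ?_, ?_⟩
        · refine symmDiff_subset ?_ (hz0.trans hFr)
          intro j hj
          rw [Finset.mem_symmDiff] at hj
          rcases hj with ⟨h1, h2⟩ | ⟨h1, h2⟩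
          · have := hz1 h1
            rw [mem_range] at this ⊢
            have : j ≠ i := by simpa using h2
            omega
          · exact absurd ((mem_singleton.1 h1) ▸ hiz) h2
        · rw [bd_symmDiff, bd_symmDiff, hz2, bd_singleton, bz0, add_assoc, self_add_self, add_zero]
      · refine ⟨z, ?_, hz2⟩
        intro j hj
        have := hz1 hj
        rw [mem_range] at this ⊢
        have : j ≠ i := fun h => hiz (h ▸ hj)
        omega
    obtain ⟨zz, hzz, bzz⟩ := hS x y hx' hy' hxy'
    have claim : (∀ e ∈ σ, e ∉ zz) ∨ (∀ e ∈ σ, e ∈ zz) := by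
      by_cases hcx : Conn a b i (a i) x
      · have hxX : x ∈ X := by
          simp only [hXdef, mem_filter, mem_univ, true_and]; exact ⟨hx', hcx⟩
        have hyX : y ∈ X := by
          simp only [hXdef, mem_filter, mem_univ, true_and]; exact ⟨hy', hcx.trans hxy'⟩
        have hzJ : zz = symmDiff (J x) (J y) := by
          refine hF.uniq hzz (symmDiff_subset (hJ x hxX).1 (hJ y hyX).1) ?_
          rw [bzz, bd_symmDiff, (hJ x hxX).2, (hJ y hyX).2, add_comm (dl (a i)) (dl x),
            add_cancel_mid]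
        have hmem : ∀ e, (e ∈ zz ↔ ¬ (x ∈ S e ↔ y ∈ S e)) := by
          intro e
          rw [hzJ, Finset.mem_symmDiff]
          simp only [hSdef, mem_filter, hxX, hyX, true_and]
          tauto
        by_cases hne : ∃ e ∈ σ, e ∈ zz
        · right
          obtain ⟨e, he, hez⟩ := hne
          intro e' he'
          have he2 := mem_filter.1 he
          have he'2 := mem_filter.1 he'
          have : S e = S e' := hcard e he2.1 e' he'2.1 (he2.2.trans he'2.2.symm)
          rw [hmem] at hez ⊢
          rwa [← this]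
        · left
          intro e he hez
          exact hne ⟨e, he, hez⟩
      · left
        intro e he hez
        -- edges of z0 lie in the component, edges of zz outside
        set R : W → Prop := fun v => Conn a b i (a i) v with hR
        have hcl : ∀ z ⊆ F, ∀ j ∈ z, (R (a j) ↔ R (b j)) := by
          intro z hz j hj
          have hji : j < i := by simpa using hFr (hz hj)
          have hc : Conn a b i (a j) (b j) := ⟨{j}, by simpa using hji, bd_singleton j⟩
          exact ⟨fun h => h.trans hc, fun h => h.trans hc.symm⟩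
        have h1 : zz.filter (fun j => R (a j)) = ∅ := by
          refine hF _ ((Finset.filter_subset _ _).trans hzz) ?_
          funext v
          rw [bd_restrict (hcl zz hzz) v]
          by_cases hv : R v
          · rw [if_pos hv, bzz]
            have k1 : v ≠ x := by rintro rfl; exact hcx hv
            have k2 : v ≠ y := by rintro rfl; exact hcx (hv.trans hxy'.symm)
            simp [dl_ne k1, dl_ne k2]
          · rw [if_neg hv]; rfl
        have h2 : z0.filter (fun j => ¬ R (a j)) = ∅ := by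
          refine hF _ ((Finset.filter_subset _ _).trans hz0) ?_
          funext v
          have := bd_restrict (R := fun v => ¬ R v) (fun j hj => not_congr (hcl z0 hz0 j hj)) v
          have this' : bd a b (z0.filter (fun j => ¬ R (a j))) v =
              if ¬ R v then bd a b z0 v else 0 := by convert this
          refine this'.trans ?_
          by_cases hv : R v
          · rw [if_neg (not_not.2 hv)]; rfl
          · rw [if_pos hv, bz0]
            have k1 : v ≠ a i := by rintro rfl; exact hv (Conn.refl _ _)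
            have k2 : v ≠ b i := by rintro rfl; exact hv hconn
            simp [dl_ne k1, dl_ne k2]
        by_cases hRe : R (a e)
        · have : e ∈ zz.filter (fun j => R (a j)) := mem_filter.2 ⟨hez, hRe⟩
          rw [h1] at this; simp at this
        · have : e ∈ z0.filter (fun j => ¬ R (a j)) := mem_filter.2 ⟨hσz he, hRe⟩
          rw [h2] at this; simp at this
    rcases claim with h | h
    · refine ⟨zz, ?_, bzz⟩
      intro e he
      rw [mem_insert, mem_sdiff]
      exact Or.inr ⟨hzz he, fun h' => h e h' he⟩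
    · refine ⟨symmDiff (symmDiff zz z0) {i}, ?_, ?_⟩
      · intro e he
        rw [Finset.mem_symmDiff, Finset.mem_symmDiff, mem_singleton] at he
        rw [mem_insert, mem_sdiff]
        by_cases hei : e = i
        · exact Or.inl hei
        · right
          rcases he with ⟨(⟨h1, h2⟩ | ⟨h1, h2⟩), _⟩ | ⟨h1, _⟩
          · exact ⟨hzz h1, fun h' => h2 (hσz h')⟩
          · exact ⟨hz0 h1, fun h' => h2 (h e h')⟩
          · exact absurd h1 hei
      · rw [bd_symmDiff, bd_symmDiff, bzz, bz0, bd_singleton, add_assoc, self_add_self, add_zero]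
  -- choose the class
  by_cases hz0e : z0 = ∅
  · refine ⟨∅, by simp, by simp [hz0e], ?_⟩
    have := main 0
    rwa [hz0e, Finset.filter_empty] at this
  obtain ⟨e0, he0⟩ := Finset.nonempty_iff_ne_empty.2 hz0e
  have hrange : ∀ e ∈ z0, (S e).card ∈ Finset.Icc 1 (t - 1) := by
    intro e he
    rw [mem_Icc]
    constructor
    · exact Finset.card_pos.2 ⟨a i, hSa e⟩
    · have : S e ⊂ X := by
        refine ⟨Finset.filter_subset _ _, fun h => hSb e he (h hbX)⟩
      have := Finset.card_lt_card this
      omega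
  have ht2 : 2 ≤ t := by
    have := hrange e0 he0
    rw [mem_Icc] at this; omega
  have htr : (0 : ℝ) < (t : ℝ) - 1 := by
    have : (2 : ℝ) ≤ t := by exact_mod_cast ht2
    linarith
  obtain ⟨n, hn, hn2⟩ := Finset.exists_le_sum_fiber_of_maps_to_of_nsmul_le_sum (s := z0)
    (t := Finset.Icc 1 (t - 1)) (f := fun e => (S e).card) (w := w)
    (b := (∑ e ∈ z0, w e) / ((t : ℝ) - 1)) hrange ⟨_, hrange e0 he0⟩ (by
      rw [Nat.card_Icc, nsmul_eq_mul]
      have : ((t - 1 + 1 - 1 : ℕ) : ℝ) = (t : ℝ) - 1 := by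
        rw [Nat.add_sub_cancel, Nat.cast_sub (by omega)]; simp
      rw [this, mul_div_cancel₀ _ htr.ne'])
  refine ⟨z0.filter fun e => (S e).card = n, Finset.filter_subset _ _, ?_, main n⟩
  rw [div_le_iff₀ htr] at hn2
  linarith

lemma spans_insert {m i : ℕ} {F : Finset ℕ} (hS : Spans a b m i F) (hi : i < m) :
    Spans a b m (i + 1) (insert i F) := by
  intro x y hx hy hxy
  have hx' := hx.mono (Nat.le_succ i)
  have hy' := hy.mono (Nat.le_succ i)
  obtain ⟨z, hz1, hz2⟩ := hxy
  have hsub : ∀ z' ⊆ z, i ∉ z' → z' ⊆ range i := by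
    intro z' hz' hiz j hj
    have := hz1 (hz' hj)
    rw [mem_range] at this ⊢
    have : j ≠ i := fun h => hiz (h ▸ hj)
    omega
  by_cases hiz : i ∈ z
  · have hb : bd a b (z \ {i}) = dl x + dl y + (dl (a i) + dl (b i)) := by
      rw [bd_sdiff (by simpa using hiz), hz2, bd_singleton]
    obtain ⟨z', hz', h⟩ := split4 hb
    have hz'z : z' ⊆ z := hz'.trans sdiff_subset
    have hiz' : i ∉ z' := fun h => by have := hz' h; simp at this
    have hc : Join a b i x y z' ∨ (Conn a b i x (a i) ∧ Conn a b i (b i) y) ∨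
        (Conn a b i x (b i) ∧ Conn a b i (a i) y) := by
      have hs1 := hsub z' hz'z hiz'
      have hs2 : (z \ {i}) \ z' ⊆ range i := hsub _ (sdiff_subset.trans sdiff_subset) (by simp)
      rcases h with h | ⟨h, h'⟩ | ⟨h, h'⟩
      · exact Or.inl ⟨hs1, h⟩
      · exact Or.inr (Or.inl ⟨⟨_, hs1, h⟩, ⟨_, hs2, h'⟩⟩)
      · exact Or.inr (Or.inr ⟨⟨_, hs1, h⟩, ⟨_, hs2, h'⟩⟩)
    rcases hc with h | ⟨h, h'⟩ | ⟨h, h'⟩
    · obtain ⟨z'', k1, k2⟩ := hS x y hx' hy' ⟨z', h⟩
      exact ⟨z'', k1.trans (subset_insert _ _), k2⟩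
    · obtain ⟨z1, k1, k2⟩ := hS _ _ hx' (active_a hi) h
      obtain ⟨z2, l1, l2⟩ := hS _ _ (active_b hi) hy' h'
      refine ⟨symmDiff (symmDiff z1 {i}) z2, ?_, ?_⟩
      · refine symmDiff_subset (symmDiff_subset (k1.trans (subset_insert _ _)) (by simp)) ?_
        exact l1.trans (subset_insert _ _)
      · rw [bd_symmDiff, bd_symmDiff, k2, l2, bd_singleton, add_cancel_mid, add_cancel_mid]
    · obtain ⟨z1, k1, k2⟩ := hS _ _ hx' (active_b hi) h
      obtain ⟨z2, l1, l2⟩ := hS _ _ (active_a hi) hy' h'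
      refine ⟨symmDiff (symmDiff z1 {i}) z2, ?_, ?_⟩
      · refine symmDiff_subset (symmDiff_subset (k1.trans (subset_insert _ _)) (by simp)) ?_
        exact l1.trans (subset_insert _ _)
      · rw [bd_symmDiff, bd_symmDiff, k2, l2, bd_singleton, add_comm (dl (a i)) (dl (b i)),
          add_cancel_mid, add_cancel_mid]
  · obtain ⟨z'', k1, k2⟩ := hS x y hx' hy' ⟨z, hsub z (subset_refl _) hiz, hz2⟩
    exact ⟨z'', k1.trans (subset_insert _ _), k2⟩

omit [Fintype W] in
lemma exists_acyc {m i : ℕ} {F : Finset ℕ} (hS : Spans a b m i F) :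
    ∃ F0 ⊆ F, Spans a b m i F0 ∧ Acyc a b F0 := by
  obtain ⟨F0, hF0, hmin⟩ := Finset.exists_min_image (F.powerset.filter (Spans a b m i)) card
    ⟨F, by simp [hS]⟩
  rw [mem_filter, mem_powerset] at hF0
  refine ⟨F0, hF0.1, hF0.2, ?_⟩
  intro c hc hbc
  by_contra hne
  obtain ⟨j, hj⟩ := Finset.nonempty_iff_ne_empty.2 hne
  have hsp : Spans a b m i (F0.erase j) := by
    intro x y hx hy hxy
    obtain ⟨z, hz, bz⟩ := hF0.2 x y hx hy hxy
    by_cases hjz : j ∈ z
    · refine ⟨symmDiff z c, ?_, by rw [bd_symmDiff, bz, hbc, add_zero]⟩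
      intro e he
      rw [mem_erase]
      refine ⟨?_, symmDiff_subset hz hc he⟩
      rintro rfl
      rw [Finset.mem_symmDiff] at he
      tauto
    · refine ⟨z, ?_, bz⟩
      intro e he
      rw [mem_erase]
      exact ⟨fun h => hjz (h ▸ he), hz he⟩
  have := hmin (F0.erase j) (by
    rw [mem_filter, mem_powerset]; exact ⟨(erase_subset _ _).trans hF0.1, hsp⟩)
  have h2 := Finset.card_erase_lt_of_mem (hc hj)
  omega

/-- For every weight function there is a cheap choice of joins. -/
theorem stepA {m t : ℕ} (ht : 1 ≤ t)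
    (H : ∀ i < m, ∀ x : W, (univ.filter fun y => Active a b m i y ∧ Conn a b i x y).card ≤ t)
    (w : ℕ → ℝ) (hw : ∀ e, 0 ≤ w e) (i : ℕ) (hi : i ≤ m) :
    ∃ F ⊆ range i, Spans a b m i F ∧ ∃ z : ℕ → Finset ℕ,
      (∀ j < i, Conn a b j (a j) (b j) → Join a b j (a j) (b j) (z j)) ∧
      ∑ j ∈ (range i).filter (fun j => Conn a b j (a j) (b j)), ∑ e ∈ z j, w e
        + ((t : ℝ) - 1) * ∑ e ∈ F, w e ≤ ((t : ℝ) - 1) * ∑ e ∈ range i, w e := by
  have ht' : (0 : ℝ) ≤ (t : ℝ) - 1 := by
    have : (1 : ℝ) ≤ t := by exact_mod_cast ht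
    linarith
  induction i with
  | zero =>
    refine ⟨∅, by simp, ?_, fun _ => ∅, by simp, by simp⟩
    rintro x y - - ⟨z, hz1, hz2⟩
    exact ⟨z, by simpa using hz1, hz2⟩
  | succ i ih =>
    obtain ⟨F, hFr, hS, z, hz, hcost⟩ := ih (by omega)
    have hiF : i ∉ F := fun h => by simpa using hFr h
    have hnotin : i ∉ (range i).filter (fun j => Conn a b j (a j) (b j)) := by simp
    by_cases hev : Conn a b i (a i) (b i)
    · obtain ⟨F0, hF0, hS0, hac⟩ := exists_acyc hS
      have hF0r := hF0.trans hFr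
      obtain ⟨z0, hz0, bz0⟩ := hS0 (a i) (b i) (active_a hi) (active_b hi) hev
      obtain ⟨σ, hσ, hσw, hS1⟩ := drop_class hac hF0r hS0 hi hz0 bz0 (H i hi (a i)) w
      refine ⟨insert i (F0 \ σ), ?_, hS1, Function.update z i z0, ?_, ?_⟩
      · intro e he
        rw [mem_insert, mem_sdiff] at he
        rw [mem_range]
        rcases he with rfl | ⟨h, -⟩
        · omega
        · have := hF0r h; rw [mem_range] at this; omega
      · intro j hj hc
        by_cases hji : j = i
        · subst hji; rw [Function.update_self]; exact ⟨hz0.trans hF0r, bz0⟩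
        · rw [Function.update_of_ne hji]; exact hz j (by omega) hc
      · have e6 : ∑ e ∈ range (i + 1), w e = ∑ e ∈ range i, w e + w i := sum_range_succ _ _
        rw [e6, range_add_one, filter_insert, if_pos hev, sum_insert hnotin, Function.update_self]
        have e1 : ∑ j ∈ (range i).filter (fun j => Conn a b j (a j) (b j)),
            ∑ e ∈ Function.update z i z0 j, w e =
            ∑ j ∈ (range i).filter (fun j => Conn a b j (a j) (b j)), ∑ e ∈ z j, w e := by
          refine Finset.sum_congr rfl fun j hj => ?_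
          rw [Function.update_of_ne (by rintro rfl; exact hnotin hj)]
        have e2 : ∑ e ∈ insert i (F0 \ σ), w e = w i + ∑ e ∈ F0 \ σ, w e :=
          sum_insert (fun h => hiF (hF0 (mem_sdiff.1 h).1))
        have e3 : ∑ e ∈ F0 \ σ, w e + ∑ e ∈ σ, w e = ∑ e ∈ F0, w e :=
          Finset.sum_sdiff (hσ.trans hz0)
        have e4 : ∑ e ∈ F0, w e ≤ ∑ e ∈ F, w e :=
          Finset.sum_le_sum_of_subset_of_nonneg hF0 (fun e _ _ => hw e)
        rw [e1, e2]
        have e5 : ∑ e ∈ F0 \ σ, w e = ∑ e ∈ F0, w e - ∑ e ∈ σ, w e := by linarith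
        rw [e5]
        nlinarith [mul_le_mul_of_nonneg_left e4 ht']
    · refine ⟨insert i F, ?_, spans_insert hS hi, z, ?_, ?_⟩
      · intro e he
        rw [mem_insert] at he
        rw [mem_range]
        rcases he with rfl | h
        · omega
        · have := hFr h; rw [mem_range] at this; omega
      · intro j hj hc
        by_cases hji : j = i
        · subst hji; exact absurd hc hev
        · exact hz j (by omega) hc
      · have e6 : ∑ e ∈ range (i + 1), w e = ∑ e ∈ range i, w e + w i := sum_range_succ _ _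
        rw [e6, range_add_one, filter_insert, if_neg hev, sum_insert hiF]
        nlinarith

end Forest

end Pool.MP_35885f
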