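import Pool.Agent.Lib.MP_35885f_co.Forest

open Finset

namespace Pool.MP_35885f

open scoped Classical

section Frac

variable {W : Type} [DecidableEq W] {a b : ℕ → W}

/-- indicator function of an edge set -/
noncomputable def ind (z : Finset ℕ) : ℕ → ℝ := fun e => if e ∈ z then 1 else 0

lemma ind_nonneg (z : Finset ℕ) : 0 ≤ ind z := by
  intro e; unfold ind; split_ifs <;> simp

/-- `Fr a b i x y r ℓ`: there are `r` units of fractional (x,y)-joins of load at most `ℓ`. -/
inductive Fr (a b : ℕ → W) (i : ℕ) (x y : W) : ℝ → (ℕ → ℝ) → Prop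
  | zero (ℓ : ℕ → ℝ) (h : 0 ≤ ℓ) : Fr a b i x y 0 ℓ
  | cons (r : ℝ) (ℓ : ℕ → ℝ) (c : ℝ) (z : Finset ℕ) (h : Fr a b i x y r ℓ) (hc : 0 ≤ c)
      (hz : Join a b i x y z) : Fr a b i x y (r + c) (ℓ + c • ind z)

namespace Fr

variable {i : ℕ} {x y : W} {r : ℝ} {ℓ : ℕ → ℝ}

lemma nonneg (h : Fr a b i x y r ℓ) : 0 ≤ r := by
  induction h with
  | zero => exact le_rfl
  | cons r ℓ c z h hc hz ih => linarith

lemma load_nonneg (h : Fr a b i x y r ℓ) : 0 ≤ ℓ := by
  induction h with
  | zero ℓ h => exact h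
  | cons r ℓ c z h hc hz ih => exact add_nonneg ih (smul_nonneg hc (ind_nonneg z))

lemma mono (h : Fr a b i x y r ℓ) : ∀ ℓ' : ℕ → ℝ, ℓ ≤ ℓ' → Fr a b i x y r ℓ' := by
  induction h with
  | zero ℓ h => intro ℓ' h'; exact zero ℓ' (h.trans h')
  | cons r ℓ c z h hc hz ih =>
    intro ℓ' h'
    have := cons r (ℓ' - c • ind z) c z (ih _ (le_sub_iff_add_le.2 h')) hc hz
    rwa [sub_add_cancel] at this

lemma add (h : Fr a b i x y r ℓ) {s : ℝ} {ℓ' : ℕ → ℝ} (h' : Fr a b i x y s ℓ') :
    Fr a b i x y (r + s) (ℓ + ℓ') := by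
  induction h with
  | zero ℓ h =>
    rw [zero_add]
    exact h'.mono _ (le_add_of_nonneg_left h)
  | cons r ℓ c z h hc hz ih =>
    have := cons _ _ c z ih hc hz
    have e1 : r + c + s = r + s + c := by ring
    have e2 : ℓ + c • ind z + ℓ' = ℓ + ℓ' + c • ind z := by abel
    rw [e1, e2]; exact this

lemma smul (h : Fr a b i x y r ℓ) {s : ℝ} (hs : 0 ≤ s) : Fr a b i x y (s * r) (s • ℓ) := by
  induction h with
  | zero ℓ h => rw [mul_zero]; exact zero _ (smul_nonneg hs h)
  | cons r ℓ c z h hc hz ih =>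
    have := cons _ _ (s * c) z ih (mul_nonneg hs hc) hz
    rw [mul_add, smul_add, smul_smul]; exact this

lemma symm (h : Fr a b i x y r ℓ) : Fr a b i y x r ℓ := by
  induction h with
  | zero ℓ h => exact zero _ h
  | cons r ℓ c z h hc hz ih => exact cons _ _ c z ih hc hz.symm

lemma conn (h : Fr a b i x y r ℓ) (hr : r ≠ 0) : Conn a b i x y := by
  cases h with
  | zero ℓ h => exact absurd rfl hr
  | cons r ℓ c z h hc hz => exact ⟨z, hz⟩

lemma single {z : Finset ℕ} (h : Join a b i x y z) : Fr a b i x y 1 (ind z) := by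
  have := cons 0 0 1 z (zero 0 le_rfl) zero_le_one h
  simpa using this

lemma refl (hr : 0 ≤ r) (hℓ : 0 ≤ ℓ) : Fr a b i x x r ℓ := by
  have := cons 0 ℓ r ∅ (zero ℓ hℓ) hr (Join.refl (a := a) (b := b) i x)
  have e : ℓ + r • ind ∅ = ℓ := by funext e; simp [ind]
  rwa [zero_add, e] at this

lemma trans_one (h : Fr a b i x y r ℓ) {w : W} {z' : Finset ℕ} (hz' : Join a b i y w z') :
    Fr a b i x w r (ℓ + r • ind z') := by
  induction h with
  | zero ℓ h => exact zero _ (by simpa using h)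
  | cons r ℓ c z h hc hz ih =>
    have h1 := cons _ _ c _ ih hc (hz.trans hz')
    refine h1.mono _ ?_
    intro e
    simp only [Pi.add_apply, Pi.smul_apply, smul_eq_mul]
    have : ind (symmDiff z z') e ≤ ind z e + ind z' e := by
      unfold ind
      by_cases h1 : e ∈ z <;> by_cases h2 : e ∈ z' <;> simp [Finset.mem_symmDiff, h1, h2]
    nlinarith [mul_le_mul_of_nonneg_left this hc]

lemma trans_mul (h : Fr a b i x y r ℓ) {w : W} {s : ℝ} {ℓ' : ℕ → ℝ} (h' : Fr a b i y w s ℓ') :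
    Fr a b i x w (r * s) (s • ℓ + r • ℓ') := by
  induction h' with
  | zero ℓ' h' => 
    rw [mul_zero]; exact zero _ (add_nonneg (by simp) (smul_nonneg h.nonneg h'))
  | cons s ℓ' c z h' hc hz ih =>
    have h1 := (h.trans_one hz).smul hc
    have h2 := ih.add h1
    have e1 : r * s + c * r = r * (s + c) := by ring
    rw [e1] at h2
    refine h2.mono _ (le_of_eq ?_)
    funext e
    simp only [Pi.add_apply, Pi.smul_apply, smul_eq_mul]
    ring

lemma trans (h : Fr a b i x y r ℓ) {w : W} {ℓ' : ℕ → ℝ} (h' : Fr a b i y w r ℓ') :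
    Fr a b i x w r (ℓ + ℓ') := by
  by_cases hr : r = 0
  · subst hr; exact zero _ (add_nonneg h.load_nonneg h'.load_nonneg)
  · have h1 := (h.trans_mul h').smul (inv_nonneg.2 h.nonneg)
    rw [← mul_assoc, inv_mul_cancel₀ hr, one_mul] at h1
    refine h1.mono _ (le_of_eq ?_)
    funext e
    simp only [Pi.add_apply, Pi.smul_apply, smul_eq_mul]
    field_simp

lemma sum {D : Type} (s : Finset D) (ℓ : D → ℕ → ℝ) (h : ∀ d ∈ s, Fr a b i x y 1 (ℓ d)) :
    Fr a b i x y (s.card : ℝ) (∑ d ∈ s, ℓ d) := by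
  induction s using Finset.induction_on with
  | empty => simpa using zero (a := a) (b := b) (i := i) (x := x) (y := y) 0 le_rfl
  | insert d s hd ih =>
    rw [card_insert_of_notMem hd, sum_insert hd, Nat.cast_add, Nat.cast_one, add_comm]
    exact (h d (mem_insert_self _ _)).add (ih fun d' hd' => h d' (mem_insert_of_mem hd'))

/-- scale to a prescribed smaller mass -/
lemma scale (h : Fr a b i x y r ℓ) {s : ℝ} (hs : 0 ≤ s) (h0 : r = 0 → s = 0) :
    Fr a b i x y s ((s / r) • ℓ) := by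
  have h1 := h.smul (div_nonneg hs h.nonneg)
  by_cases hr : r = 0
  · rw [h0 hr] at h1 ⊢; simpa using h1
  · rwa [div_mul_cancel₀ _ hr] at h1

end Fr

/-- Decomposition of fractional joins at the last edge. -/
lemma Fr.decomp [Fintype W] {i : ℕ} {x y : W} {r : ℝ} {ℓ : ℕ → ℝ} (h : Fr a b (i + 1) x y r ℓ) :
    ∃ (m0 m1 m2 : ℝ) (ℓ0 ℓ1 ℓ1' ℓ2 ℓ2' : ℕ → ℝ), m0 + m1 + m2 = r ∧
      Fr a b i x y m0 ℓ0 ∧ Fr a b i x (a i) m1 ℓ1 ∧ Fr a b i (b i) y m1 ℓ1' ∧
      Fr a b i x (b i) m2 ℓ2 ∧ Fr a b i (a i) y m2 ℓ2' ∧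
      ℓ0 + ℓ1 + ℓ1' + ℓ2 + ℓ2' + (m1 + m2) • ind {i} ≤ ℓ := by
  induction h with
  | zero ℓ h =>
    refine ⟨0, 0, 0, 0, 0, 0, 0, 0, by simp, .zero _ le_rfl, .zero _ le_rfl, .zero _ le_rfl,
      .zero _ le_rfl, .zero _ le_rfl, by simpa using h⟩
  | cons r ℓ c z h hc hz ih =>
    obtain ⟨m0, m1, m2, ℓ0, ℓ1, ℓ1', ℓ2, ℓ2', e, f0, f1, f1', f2, f2', hle⟩ := ih
    have hsub : ∀ z' ⊆ z, i ∉ z' → z' ⊆ range i := by
      intro z' hz' hiz j hj
      have := hz.1 (hz' hj)
      rw [mem_range] at this ⊢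
      have : j ≠ i := fun h => hiz (h ▸ hj)
      omega
    by_cases hiz : i ∈ z
    · have hb : bd a b (z \ {i}) = dl x + dl y + (dl (a i) + dl (b i)) := by
        rw [bd_sdiff (by simpa using hiz), hz.2, bd_singleton]
      obtain ⟨z', hz', h⟩ := split4 hb
      have hz'z : z' ⊆ z := hz'.trans sdiff_subset
      have hiz' : i ∉ z' := fun h => by have := hz' h; simp at this
      have hs1 := hsub z' hz'z hiz'
      have hs2 : (z \ {i}) \ z' ⊆ range i := hsub _ (sdiff_subset.trans sdiff_subset) (by simp)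
      have hind : ind z' + ind ((z \ {i}) \ z') + ind {i} ≤ ind z := by
        intro e
        simp only [Pi.add_apply]
        unfold ind
        by_cases he : e = i
        · subst he; simp [hiz', hiz]
        · by_cases h1 : e ∈ z'
          · simp [h1, hz'z h1, he]
          · by_cases h2 : e ∈ z <;> simp [h1, h2, he]
      have hind0 : ind z' ≤ ind z := by
        intro e
        have := hind e
        simp only [Pi.add_apply] at this
        have h1 := ind_nonneg ((z \ {i}) \ z') e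
        have h2 := ind_nonneg {i} e
        simp only [Pi.zero_apply] at h1 h2
        linarith
      rcases h with h | ⟨h, h'⟩ | ⟨h, h'⟩
      · refine ⟨m0 + c, m1, m2, ℓ0 + c • ind z', ℓ1, ℓ1', ℓ2, ℓ2', by linarith,
          .cons _ _ _ _ f0 hc ⟨hs1, h⟩, f1, f1', f2, f2', ?_⟩
        intro e
        have q1 := hle e
        have q2 := mul_le_mul_of_nonneg_left (hind0 e) hc
        simp only [Pi.add_apply, Pi.smul_apply, smul_eq_mul] at q1 q2 ⊢
        linarith
      · refine ⟨m0, m1 + c, m2, ℓ0, ℓ1 + c • ind z', ℓ1' + c • ind ((z \ {i}) \ z'), ℓ2, ℓ2',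
          by linarith, f0, .cons _ _ _ _ f1 hc ⟨hs1, h⟩, .cons _ _ _ _ f1' hc ⟨hs2, h'⟩,
          f2, f2', ?_⟩
        intro e
        have q1 := hle e
        have q2 := mul_le_mul_of_nonneg_left (hind e) hc
        simp only [Pi.add_apply, Pi.smul_apply, smul_eq_mul] at q1 q2 ⊢
        nlinarith
      · refine ⟨m0, m1, m2 + c, ℓ0, ℓ1, ℓ1', ℓ2 + c • ind z', ℓ2' + c • ind ((z \ {i}) \ z'),
          by linarith, f0, f1, f1', .cons _ _ _ _ f2 hc ⟨hs1, h⟩,
          .cons _ _ _ _ f2' hc ⟨hs2, h'⟩, ?_⟩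
        intro e
        have q1 := hle e
        have q2 := mul_le_mul_of_nonneg_left (hind e) hc
        simp only [Pi.add_apply, Pi.smul_apply, smul_eq_mul] at q1 q2 ⊢
        nlinarith
    · refine ⟨m0 + c, m1, m2, ℓ0 + c • ind z, ℓ1, ℓ1', ℓ2, ℓ2', by linarith,
        .cons _ _ _ _ f0 hc ⟨hsub z (subset_refl _) hiz, hz.2⟩, f1, f1', f2, f2', ?_⟩
      intro e
      have q1 := hle e
      simp only [Pi.add_apply, Pi.smul_apply, smul_eq_mul] at q1 ⊢
      linarith

/-- the events: edges whose ends are already joined -/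
noncomputable def evs (a b : ℕ → W) (i : ℕ) : Finset ℕ :=
  (range i).filter (fun j => Conn a b j (a j) (b j))

variable [Fintype W]

/-- Fractional solution by minimax. -/
theorem fractional {m t : ℕ} (ht : 1 ≤ t)
    (H : ∀ i < m, ∀ x : W, (univ.filter fun y => Active a b m i y ∧ Conn a b i x y).card ≤ t) :
    ∃ ℓ : ℕ → ℕ → ℝ, (∀ j ∈ evs a b m, Fr a b j (a j) (b j) 1 (ℓ j)) ∧
      ∀ e < m, ∑ j ∈ evs a b m, ℓ j e ≤ (t : ℝ) - 1 := by
  have ht' : (0 : ℝ) ≤ (t : ℝ) - 1 := by
    have : (1 : ℝ) ≤ t := by exact_mod_cast ht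
    linarith
  set ld : (ℕ → Finset ℕ) → Fin m → ℝ :=
    fun z e => (((evs a b m).filter fun j => (e : ℕ) ∈ z j).card : ℝ) with hld
  set P : Set (Fin m → ℝ) :=
    {x | ∃ z : ℕ → Finset ℕ, (∀ j ∈ evs a b m, Join a b j (a j) (b j) (z j)) ∧ x = ld z} with hP
  set Q : Set (Fin m → ℝ) :=
    {x | ∃ ℓ : ℕ → ℕ → ℝ, (∀ j ∈ evs a b m, Fr a b j (a j) (b j) 1 (ℓ j)) ∧
      ∀ e : Fin m, ∑ j ∈ evs a b m, ℓ j e ≤ x e} with hQ
  set C : Set (Fin m → ℝ) := {x | ∀ e, x e ≤ (t : ℝ) - 1} with hC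
  have hPfin : P.Finite := by
    refine Set.Finite.subset (Set.Finite.pi' (ι := Fin m)
      (t := fun _ => (Nat.cast : ℕ → ℝ) '' Set.Iic m) fun _ => (Set.finite_Iic m).image _) ?_
    rintro x ⟨z, -, rfl⟩ e
    refine ⟨_, ?_, rfl⟩
    rw [Set.mem_Iic]
    calc _ ≤ (evs a b m).card := Finset.card_filter_le _ _
      _ ≤ (range m).card := Finset.card_filter_le _ _
      _ = m := card_range m
  have hQconv : Convex ℝ Q := by
    rintro x ⟨ℓ, h1, h2⟩ y ⟨ℓ', h1', h2'⟩ α β hα hβ hαβ
    refine ⟨fun j => α • ℓ j + β • ℓ' j, ?_, ?_⟩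
    · intro j hj
      have := ((h1 j hj).smul hα).add ((h1' j hj).smul hβ)
      rwa [mul_one, mul_one, hαβ] at this
    · intro e
      simp only [Pi.add_apply, Pi.smul_apply, smul_eq_mul, Finset.sum_add_distrib,
        ← Finset.mul_sum]
      exact add_le_add (mul_le_mul_of_nonneg_left (h2 e) hα) (mul_le_mul_of_nonneg_left (h2' e) hβ)
  have hPQ : P ⊆ Q := by
    rintro x ⟨z, hz, rfl⟩
    refine ⟨fun j => ind (z j), fun j hj => Fr.single (hz j hj), ?_⟩
    intro e
    simp only [ind, hld]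
    rw [Finset.sum_boole]
  have hCconv : Convex ℝ C := by
    intro x hx y hy α β hα hβ hαβ e
    simp only [Pi.add_apply, Pi.smul_apply, smul_eq_mul]
    have := hx e; have := hy e
    calc α * x e + β * y e ≤ α * ((t : ℝ) - 1) + β * ((t : ℝ) - 1) := by
          gcongr
      _ = _ := by rw [← add_mul, hαβ, one_mul]
  have hCclosed : IsClosed C := by
    have : C = ⋂ e : Fin m, {x | x e ≤ (t : ℝ) - 1} := by ext x; simp [hC]
    rw [this]
    exact isClosed_iInter fun e => isClosed_le (continuous_apply e) continuous_const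
  by_cases hdis : Disjoint (convexHull ℝ P) C
  · exfalso
    obtain ⟨f, u, v, h1, huv, h2⟩ := geometric_hahn_banach_compact_closed
      (convex_convexHull ℝ P) (hPfin.isCompact_convexHull ℝ) hCconv hCclosed hdis
    set c : Fin m → ℝ := fun e => f (Pi.single e 1) with hc
    have hf : ∀ x : Fin m → ℝ, f x = ∑ e, x e * c e := by
      intro x
      have := LinearMap.pi_apply_eq_sum_univ (f : (Fin m → ℝ) →ₗ[ℝ] ℝ) x
      simp only [ContinuousLinearMap.coe_coe, smul_eq_mul] at this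
      rw [this]
      refine Finset.sum_congr rfl fun e _ => ?_
      congr 2
      funext j
      simp [Pi.single_apply, eq_comm]
    have hcneg : ∀ e, c e ≤ 0 := by
      intro e
      by_contra hpos
      push Not at hpos
      set one : Fin m → ℝ := fun _ => (t : ℝ) - 1 with hone
      have hv1 : v < f one := h2 one (fun e => le_rfl)
      set n : ℝ := (f one - v) / c e with hn
      have hn0 : 0 ≤ n := div_nonneg (by linarith) hpos.le
      have hmem : one - n • (Pi.single e 1 : Fin m → ℝ) ∈ C := by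
        intro e'
        simp only [Pi.sub_apply, Pi.smul_apply, smul_eq_mul, hone]
        have : 0 ≤ n * (Pi.single e 1 : Fin m → ℝ) e' := by
          refine mul_nonneg hn0 ?_
          by_cases he : e' = e
          · subst he; simp
          · simp [he]
        linarith
      have := h2 _ hmem
      rw [map_sub, map_smul, smul_eq_mul] at this
      have e3 : n * c e = f one - v := by rw [hn]; field_simp
      have e4 : n * f (Pi.single e 1) = f one - v := e3
      rw [e4] at this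
      linarith
    set w : ℕ → ℝ := fun e => if h : e < m then - c ⟨e, h⟩ else 0 with hw
    have hwnn : ∀ e, 0 ≤ w e := by
      intro e; simp only [hw]; split_ifs with h
      · have := hcneg ⟨e, h⟩; linarith
      · exact le_rfl
    obtain ⟨F, -, -, z, hz, hcost⟩ := stepA ht H w hwnn m le_rfl
    have hz' : ∀ j ∈ evs a b m, Join a b j (a j) (b j) (z j) := by
      intro j hj
      rw [evs, mem_filter, mem_range] at hj
      exact hz j hj.1 hj.2
    have hF0 : 0 ≤ ((t : ℝ) - 1) * ∑ e ∈ F, w e :=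
      mul_nonneg ht' (Finset.sum_nonneg fun e _ => hwnn e)
    have hcost' : ∑ j ∈ evs a b m, ∑ e ∈ z j, w e ≤ ((t : ℝ) - 1) * ∑ e ∈ range m, w e := by
      have : ∑ j ∈ evs a b m, ∑ e ∈ z j, w e =
        ∑ j ∈ (range m).filter (fun j => Conn a b j (a j) (b j)), ∑ e ∈ z j, w e := rfl
      rw [this]; linarith
    have hx : ld z ∈ convexHull ℝ P := subset_convexHull ℝ P ⟨z, hz', rfl⟩
    have h3 := h1 _ hx
    have h4 := h2 (fun _ => (t : ℝ) - 1) (fun e => le_rfl)
    have e1 : f (ld z) = - ∑ j ∈ evs a b m, ∑ e ∈ z j, w e := by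
      rw [hf]
      have : ∀ j ∈ evs a b m, ∑ e ∈ z j, w e = ∑ e : Fin m, (if (e : ℕ) ∈ z j then - c e else 0) := by
        intro j hj
        have hsub : z j ⊆ range m := by
          refine (hz' j hj).1.trans (range_mono ?_)
          rw [evs, mem_filter, mem_range] at hj; exact hj.1.le
        have q1 : ∑ e ∈ z j, w e = ∑ e ∈ range m, if e ∈ z j then w e else 0 := by
          rw [← Finset.sum_filter]
          congr 1
          ext e; rw [mem_filter]; exact ⟨fun h => ⟨hsub h, h⟩, fun h => h.2⟩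
        rw [q1, Finset.sum_range]
        refine Finset.sum_congr rfl fun e _ => ?_
        simp [hw]
      rw [Finset.sum_congr rfl this, Finset.sum_comm, ← Finset.sum_neg_distrib]
      refine Finset.sum_congr rfl fun e _ => ?_
      rw [← Finset.sum_filter, Finset.sum_const, nsmul_eq_mul]
      simp only [hld]; ring
    have e2 : f (fun _ => (t : ℝ) - 1) = - (((t : ℝ) - 1) * ∑ e ∈ range m, w e) := by
      rw [hf, Finset.sum_range, Finset.mul_sum, ← Finset.sum_neg_distrib]
      refine Finset.sum_congr rfl fun e _ => ?_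
      simp [hw]
    rw [e1] at h3
    rw [e2] at h4
    linarith
  · rw [Set.not_disjoint_iff] at hdis
    obtain ⟨x, hx1, hx2⟩ := hdis
    obtain ⟨ℓ, h1, h2⟩ := convexHull_min hPQ hQconv hx1
    exact ⟨ℓ, h1, fun e he => (h2 ⟨e, he⟩).trans (hx2 ⟨e, he⟩)⟩

end Frac

end Pool.MP_35885f
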