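import Mathlib

/-!
# Joins in a sequence of edges (helper for MP_35885f_co)

`a b : ℕ → W` are the ends of the edges `0,1,2,…` of a multigraph on the finite vertex set `W`.
`bd a b z` is the mod-2 boundary of the edge set `z`; a set `z ⊆ {0..i-1}` with boundary
`dl x + dl y` is an (x,y)-join inside the first `i` edges.
-/

open Finset

namespace Pool.MP_35885f

section Abstract

variable {W : Type} [DecidableEq W]

/-- indicator vector of a vertex -/
def dl (x : W) : W → ZMod 2 := Pi.single x 1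

/-- mod-2 boundary of a set of edges -/
def bd (a b : ℕ → W) (z : Finset ℕ) : W → ZMod 2 := ∑ j ∈ z, (dl (a j) + dl (b j))

omit [DecidableEq W] in
lemma self_add_self (f : W → ZMod 2) : f + f = 0 := by
  funext x; exact CharTwo.add_self_eq_zero _

lemma dl_self (x : W) : dl x x = 1 := by simp [dl]

lemma dl_ne {x y : W} (h : y ≠ x) : dl x y = 0 := by simp [dl, h]

lemma sum_symmDiff {M : Type*} [AddCommGroup M] (hM : ∀ x : M, x + x = 0) (f : ℕ → M)
    (s t : Finset ℕ) : ∑ j ∈ symmDiff s t, f j = ∑ j ∈ s, f j + ∑ j ∈ t, f j := by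
  have h1 : symmDiff s t = (s \ t) ∪ (t \ s) := rfl
  have h2 : Disjoint (s \ t) (t \ s) := disjoint_sdiff_sdiff
  rw [h1, Finset.sum_union h2]
  have h3 : ∑ j ∈ s, f j = ∑ j ∈ s \ t, f j + ∑ j ∈ s ∩ t, f j := by
    rw [← Finset.sum_union]
    · congr 1
      ext j; simp only [mem_union, mem_sdiff, mem_inter]; tauto
    · rw [Finset.disjoint_left]; intro j; simp only [mem_sdiff, mem_inter]; tauto
  have h4 : ∑ j ∈ t, f j = ∑ j ∈ t \ s, f j + ∑ j ∈ s ∩ t, f j := by
    rw [← Finset.sum_union]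
    · congr 1
      ext j; simp only [mem_union, mem_sdiff, mem_inter]; tauto
    · rw [Finset.disjoint_left]; intro j; simp only [mem_sdiff, mem_inter]; tauto
  rw [h3, h4]
  have := hM (∑ j ∈ s ∩ t, f j)
  calc _ = ∑ j ∈ s \ t, f j + ∑ j ∈ t \ s, f j + 0 := by simp
    _ = _ := by rw [← this]; abel

variable {a b : ℕ → W}

lemma bd_symmDiff (s t : Finset ℕ) : bd a b (symmDiff s t) = bd a b s + bd a b t :=
  sum_symmDiff self_add_self _ s t

lemma bd_empty : bd a b ∅ = 0 := by simp [bd]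

lemma bd_singleton (j : ℕ) : bd a b {j} = dl (a j) + dl (b j) := by simp [bd]

lemma bd_sdiff {z z' : Finset ℕ} (h : z' ⊆ z) : bd a b (z \ z') = bd a b z + bd a b z' := by
  have h1 : bd a b (z \ z') + bd a b z' = bd a b z := Finset.sum_sdiff h
  rw [← h1, add_assoc, self_add_self, add_zero]

/-- `z` is an (x,y)-join among the edges `0..i-1`. -/
def Join (a b : ℕ → W) (i : ℕ) (x y : W) (z : Finset ℕ) : Prop :=
  z ⊆ range i ∧ bd a b z = dl x + dl y

/-- `x` and `y` are joined by the first `i` edges. -/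
def Conn (a b : ℕ → W) (i : ℕ) (x y : W) : Prop := ∃ z, Join a b i x y z

lemma Join.symm {i : ℕ} {x y : W} {z : Finset ℕ} (h : Join a b i x y z) : Join a b i y x z :=
  ⟨h.1, by rw [h.2, add_comm]⟩

lemma Join.refl (i : ℕ) (x : W) : Join a b i x x ∅ :=
  ⟨by simp, by rw [bd_empty, self_add_self]⟩

lemma add_cancel_mid (f g h : W → ZMod 2) : f + g + (g + h) = f + h := by
  calc f + g + (g + h) = f + (g + g) + h := by abel
    _ = f + h := by rw [self_add_self, add_zero]

lemma symmDiff_subset {s t u : Finset ℕ} (hs : s ⊆ u) (ht : t ⊆ u) : symmDiff s t ⊆ u := by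
  intro j hj
  rw [Finset.mem_symmDiff] at hj
  rcases hj with h | h
  · exact hs h.1
  · exact ht h.1

lemma Join.trans {i : ℕ} {x y w : W} {z z' : Finset ℕ} (h : Join a b i x y z)
    (h' : Join a b i y w z') : Join a b i x w (symmDiff z z') :=
  ⟨symmDiff_subset h.1 h'.1, by rw [bd_symmDiff, h.2, h'.2, add_cancel_mid]⟩

lemma Join.mono {i i' : ℕ} (hi : i ≤ i') {x y : W} {z : Finset ℕ} (h : Join a b i x y z) :
    Join a b i' x y z :=
  ⟨h.1.trans (Finset.range_mono hi), h.2⟩

lemma Conn.symm {i : ℕ} {x y : W} (h : Conn a b i x y) : Conn a b i y x := by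
  obtain ⟨z, hz⟩ := h; exact ⟨z, hz.symm⟩

lemma Conn.refl (i : ℕ) (x : W) : Conn a b i x x := ⟨∅, Join.refl i x⟩

lemma Conn.trans {i : ℕ} {x y w : W} (h : Conn a b i x y) (h' : Conn a b i y w) :
    Conn a b i x w := by
  obtain ⟨z, hz⟩ := h; obtain ⟨z', hz'⟩ := h'; exact ⟨_, hz.trans hz'⟩

lemma Conn.mono {i i' : ℕ} (hi : i ≤ i') {x y : W} (h : Conn a b i x y) : Conn a b i' x y := by
  obtain ⟨z, hz⟩ := h; exact ⟨z, hz.mono hi⟩

lemma sum_dl (S : Finset W) (x : W) : ∑ v ∈ S, dl x v = if x ∈ S then 1 else 0 := by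
  simp [dl, Pi.single_apply]

lemma sum_bd (z : Finset ℕ) (S : Finset W) :
    ∑ v ∈ S, bd a b z v =
      ∑ j ∈ z, ((if a j ∈ S then 1 else 0) + (if b j ∈ S then 1 else 0)) := by
  simp only [bd, Finset.sum_apply, Pi.add_apply]
  rw [Finset.sum_comm]
  refine Finset.sum_congr rfl fun j _ => ?_
  rw [Finset.sum_add_distrib, sum_dl, sum_dl]

/-- Parity: a vertex set closed under the edges of `z` has even boundary. -/
lemma sum_bd_closed (z : Finset ℕ) (S : Finset W) (h : ∀ j ∈ z, (a j ∈ S ↔ b j ∈ S)) :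
    ∑ v ∈ S, bd a b z v = 0 := by
  rw [sum_bd]
  refine Finset.sum_eq_zero fun j hj => ?_
  by_cases h1 : a j ∈ S
  · simp only [h1, (h j hj).1 h1, if_true]; decide
  · have h2 : b j ∉ S := fun h3 => h1 ((h j hj).2 h3)
    simp [h1, h2]

/-- Connected vertices lie in the same fibre of any function constant along the edges. -/
lemma Conn.fiber {β : Type*} {i : ℕ} (f : W → β) [Fintype W] (hf : ∀ j < i, f (a j) = f (b j))
    {x y : W} (h : Conn a b i x y) : f x = f y := by
  classical
  obtain ⟨z, hz1, hz2⟩ := h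
  by_contra hne
  have h0 := sum_bd_closed (a := a) (b := b) z (univ.filter fun v => f v = f x) (by
    intro j hj
    have := hf j (by simpa using hz1 hj)
    simp [this])
  rw [hz2] at h0
  simp only [Pi.add_apply, Finset.sum_add_distrib, sum_dl] at h0
  have h3 : ¬ (f y = f x) := fun h => hne h.symm
  simp [h3] at h0

/-- Splitting of an edge set with four odd vertices. -/
lemma split4 [Fintype W] {z : Finset ℕ} {x y p q : W}
    (h : bd a b z = dl x + dl y + (dl p + dl q)) :
    ∃ z' ⊆ z, (bd a b z' = dl x + dl y) ∨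
      (bd a b z' = dl x + dl p ∧ bd a b (z \ z') = dl q + dl y) ∨
      (bd a b z' = dl x + dl q ∧ bd a b (z \ z') = dl p + dl y) := by
  classical
  set S : Finset W := univ.filter (fun v => ∃ z' ⊆ z, bd a b z' = dl x + dl v) with hS
  have hclosed : ∀ j ∈ z, (a j ∈ S ↔ b j ∈ S) := by
    intro j hj
    simp only [hS, mem_filter, mem_univ, true_and]
    constructor
    · rintro ⟨z', hz', hb⟩
      refine ⟨symmDiff z' {j}, symmDiff_subset hz' (by simpa using hj), ?_⟩
      rw [bd_symmDiff, hb, bd_singleton, add_cancel_mid]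
    · rintro ⟨z', hz', hb⟩
      refine ⟨symmDiff z' {j}, symmDiff_subset hz' (by simpa using hj), ?_⟩
      rw [bd_symmDiff, hb, bd_singleton, add_comm (dl (a j)), add_cancel_mid]
  have h0 := sum_bd_closed z S hclosed
  rw [h] at h0
  simp only [Pi.add_apply, Finset.sum_add_distrib, sum_dl] at h0
  have hx : x ∈ S := by
    simp only [hS, mem_filter, mem_univ, true_and]
    exact ⟨∅, by simp, by rw [bd_empty, self_add_self]⟩
  by_cases hy : y ∈ S
  · simp only [hS, mem_filter, mem_univ, true_and] at hy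
    obtain ⟨z', hz', hb⟩ := hy
    exact ⟨z', hz', Or.inl hb⟩
  by_cases hp : p ∈ S
  · simp only [hS, mem_filter, mem_univ, true_and] at hp
    obtain ⟨z', hz', hb⟩ := hp
    refine ⟨z', hz', Or.inr (Or.inl ⟨hb, ?_⟩)⟩
    rw [bd_sdiff hz', h, hb]
    calc _ = (dl x + dl x) + (dl p + dl p) + (dl q + dl y) := by abel
      _ = _ := by rw [self_add_self, self_add_self, zero_add, zero_add]
  by_cases hq : q ∈ S
  · simp only [hS, mem_filter, mem_univ, true_and] at hq
    obtain ⟨z', hz', hb⟩ := hq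
    refine ⟨z', hz', Or.inr (Or.inr ⟨hb, ?_⟩)⟩
    rw [bd_sdiff hz', h, hb]
    calc _ = (dl x + dl x) + (dl q + dl q) + (dl p + dl y) := by abel
      _ = _ := by rw [self_add_self, self_add_self, zero_add, zero_add]
  · simp [hx, hy, hp, hq] at h0

end Abstract

end Pool.MP_35885f
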