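import Pool.Agent.Lib.MP_35885f_co.Frac

open Finset

namespace Pool.MP_35885f

open scoped Classical

section Round

variable {W : Type} [DecidableEq W] {a b : ℕ → W} [Fintype W]

/-- One type of demands at one edge. -/
lemma type_step {i : ℕ} {μ : ℝ} {β : ℕ → ℝ} (hμ : 0 < μ) (hβ0 : 0 ≤ β)
    (hβ : Conn a b i (a i) (b i) → Fr a b i (a i) (b i) μ β)
    {D : Type} (s : Finset D) (x y : W) (ℓ : ℕ → ℝ)
    (h : Fr a b (i + 1) x y (s.card : ℝ) ℓ) :
    ∃ (q1 p2 : D → W) (ℓ1 ℓ2 : D → ℕ → ℝ) (U : Finset D) (f : ℝ), U ⊆ s ∧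
      (∀ d ∈ s, Fr a b i x (q1 d) 1 (ℓ1 d) ∧ Fr a b i (p2 d) y 1 (ℓ2 d)) ∧
      (∀ d ∈ s, (d ∈ U ∧ x ≠ y ∧ ((q1 d = a i ∧ p2 d = b i) ∨ (q1 d = b i ∧ p2 d = a i))) ∨
        (d ∉ U ∧ q1 d = y ∧ p2 d = y)) ∧
      ∑ d ∈ s, (ℓ1 d + ℓ2 d) ≤ ℓ + (f / μ) • β ∧
      (U.card : ℝ) ≤ ℓ i ∧ 0 ≤ f ∧ f ≤ 2 ∧
      (f ≠ 0 → s.Nonempty ∧ x ≠ y ∧ Conn a b i (a i) (b i) ∧
        Conn a b i (a i) x ∧ Conn a b i (a i) y) := by
  by_cases hxy : x = y
  · subst hxy
    have h0 := h.load_nonneg
    refine ⟨fun _ => x, fun _ => x, fun _ => 0, fun _ => 0, ∅, 0, by simp, ?_, ?_, ?_, ?_,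
      le_rfl, by norm_num, by simp⟩
    · intro d _; exact ⟨Fr.refl zero_le_one le_rfl, Fr.refl zero_le_one le_rfl⟩
    · intro d _; right; simp
    · simpa using h0
    · simpa using h0 i
  obtain ⟨m0, m1, m2, ℓ0, ℓ1, ℓ1', ℓ2, ℓ2', hm, f0, f1, f1', f2, f2', hle⟩ := h.decomp
  have m0n := f0.nonneg
  have m1n := f1.nonneg
  have m2n := f2.nonneg
  set k1 := ⌊m1⌋₊ with hk1
  set k2 := ⌊m2⌋₊ with hk2
  have k1le : (k1 : ℝ) ≤ m1 := Nat.floor_le m1n
  have k2le : (k2 : ℝ) ≤ m2 := Nat.floor_le m2n
  have k1lt : m1 < k1 + 1 := Nat.lt_floor_add_one m1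
  have k2lt : m2 < k2 + 1 := Nat.lt_floor_add_one m2
  have hcardle : k1 + k2 ≤ s.card := by
    have : ((k1 + k2 : ℕ) : ℝ) ≤ s.card := by push_cast; linarith
    exact_mod_cast this
  obtain ⟨s1, hs1, hc1⟩ := Finset.exists_subset_card_eq (s := s) (n := k1) (by omega)
  have hcs1 : (s \ s1).card = s.card - k1 := by rw [card_sdiff_of_subset hs1, hc1]
  obtain ⟨s2, hs2, hc2⟩ := Finset.exists_subset_card_eq (s := s \ s1) (n := k2) (by omega)
  have hcs2 : ((s \ s1) \ s2).card = s.card - k1 - k2 := by
    rw [card_sdiff_of_subset hs2, hc2, hcs1]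
  set s0 := (s \ s1) \ s2 with hs0
  set g1 : ℝ := m1 - k1 with hg1
  set g2 : ℝ := m2 - k2 with hg2
  have hn0 : (s0.card : ℝ) = m0 + g1 + g2 := by
    rw [hcs2, Nat.cast_sub (by omega), Nat.cast_sub (by omega), hg1, hg2, ← hm]; ring
  have g1n : 0 ≤ g1 := by linarith
  have g2n : 0 ≤ g2 := by linarith
  have z1 : m1 = 0 → g1 = 0 := by intro h; rw [hg1, hk1, h]; simp
  have z2 : m2 = 0 → g2 = 0 := by intro h; rw [hg2, hk2, h]; simp
  have hfr : ∀ (x : ℝ) (n : ℕ), x = n → x - (⌊x⌋₊ : ℝ) = 0 := by
    intro x n h; rw [h]; simp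
  -- rest load
  have hnotev : ¬ Conn a b i (a i) (b i) → g1 = 0 ∧ g2 = 0 := by
    intro hne
    by_cases h1 : m1 = 0
    · refine ⟨z1 h1, ?_⟩
      by_cases h2 : m2 = 0
      · exact z2 h2
      · have c1 := f2.conn h2
        have c2 := f2'.conn h2
        have h0 : m0 = 0 := by
          by_contra h0
          exact hne (c2.trans ((f0.conn h0).symm.trans c1))
        exact hfr m2 s.card (by rw [← hm, h0, h1]; ring)
    · have c1 := f1.conn h1
      have c2 := f1'.conn h1
      have h0 : m0 = 0 := by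
        by_contra h0
        exact hne (c1.symm.trans ((f0.conn h0).trans c2.symm))
      have h2 : m2 = 0 := by
        by_contra h2
        exact hne (c1.symm.trans (f2.conn h2))
      exact ⟨hfr m1 s.card (by rw [← hm, h0, h2]; ring), z2 h2⟩
  have hrest : Fr a b i x y (s0.card : ℝ) (ℓ0 + (g1 / m1) • (ℓ1 + ℓ1') + (g2 / m2) • (ℓ2 + ℓ2') +
      ((g1 + g2) / μ) • β) := by
    rw [hn0]
    by_cases hev : Conn a b i (a i) (b i)
    · have hb := hβ hev
      have r1 : Fr a b i x y g1 ((g1 / m1) • ℓ1 + (g1 / μ) • β + (g1 / m1) • ℓ1') :=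
        ((f1.scale g1n z1).trans (hb.scale g1n (fun h => absurd h hμ.ne'))).trans
          (f1'.scale g1n z1)
      have r2 : Fr a b i x y g2 ((g2 / m2) • ℓ2 + (g2 / μ) • β + (g2 / m2) • ℓ2') :=
        ((f2.scale g2n z2).trans (hb.symm.scale g2n (fun h => absurd h hμ.ne'))).trans
          (f2'.scale g2n z2)
      have := (f0.add r1).add r2
      refine this.mono _ (le_of_eq ?_)
      funext e
      simp only [Pi.add_apply, Pi.smul_apply, smul_eq_mul]
      ring
    · obtain ⟨e1, e2⟩ := hnotev hev
      rw [e1, e2]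
      simp only [add_zero, zero_div, zero_smul]
      exact f0
  have hsum : ∀ g : D → ℕ → ℝ, ∀ c0 c1 c2 : ℕ → ℝ, (∀ d ∈ s1, g d = c1) → (∀ d ∈ s2, g d = c2) →
      (∀ d ∈ s0, g d = c0) →
      ∑ d ∈ s, g d = (k1 : ℝ) • c1 + ((k2 : ℝ) • c2 + (s0.card : ℝ) • c0) := by
    intro g c0 c1 c2 h1 h2 h0
    rw [← Finset.sum_sdiff hs1, ← Finset.sum_sdiff hs2, Finset.sum_congr rfl h0,
      Finset.sum_congr rfl h1, Finset.sum_congr rfl h2, Finset.sum_const, Finset.sum_const,
      Finset.sum_const, hc1, hc2, ← Nat.cast_smul_eq_nsmul ℝ, ← Nat.cast_smul_eq_nsmul ℝ,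
      ← Nat.cast_smul_eq_nsmul ℝ]
    abel
  have hs12 : ∀ d ∈ s2, d ∉ s1 := fun d hd => (mem_sdiff.1 (hs2 hd)).2
  have hs01 : ∀ d ∈ s0, d ∉ s1 ∧ d ∉ s2 := fun d hd =>
    ⟨(mem_sdiff.1 (mem_sdiff.1 hd).1).2, (mem_sdiff.1 hd).2⟩
  have hcase : ∀ d ∈ s, d ∈ s1 ∨ d ∈ s2 ∨ d ∈ s0 := by
    intro d hd
    by_cases h1 : d ∈ s1
    · exact Or.inl h1
    · by_cases h2 : d ∈ s2
      · exact Or.inr (Or.inl h2)
      · exact Or.inr (Or.inr (mem_sdiff.2 ⟨mem_sdiff.2 ⟨hd, h1⟩, h2⟩))
  have m1ne : ∀ d ∈ s1, m1 ≠ 0 := by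
    intro d hd h0
    have : 0 < s1.card := card_pos.2 ⟨d, hd⟩
    rw [hc1, hk1, h0] at this; simp at this
  have m2ne : ∀ d ∈ s2, m2 ≠ 0 := by
    intro d hd h0
    have : 0 < s2.card := card_pos.2 ⟨d, hd⟩
    rw [hc2, hk2, h0] at this; simp at this
  have n0ne : ∀ d ∈ s0, (s0.card : ℝ) ≠ 0 := by
    intro d hd
    have : 0 < s0.card := card_pos.2 ⟨d, hd⟩
    exact_mod_cast this.ne'
  set rest := ℓ0 + (g1 / m1) • (ℓ1 + ℓ1') + (g2 / m2) • (ℓ2 + ℓ2') + ((g1 + g2) / μ) • β with hrestdef
  refine ⟨fun d => if d ∈ s1 then a i else if d ∈ s2 then b i else y,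
    fun d => if d ∈ s1 then b i else if d ∈ s2 then a i else y,
    fun d => if d ∈ s1 then (1 / m1) • ℓ1 else if d ∈ s2 then (1 / m2) • ℓ2
      else (1 / (s0.card : ℝ)) • rest,
    fun d => if d ∈ s1 then (1 / m1) • ℓ1' else if d ∈ s2 then (1 / m2) • ℓ2' else 0,
    s1 ∪ s2, g1 + g2, ?_, ?_, ?_, ?_, ?_, by linarith, by linarith, ?_⟩
  · exact union_subset hs1 (hs2.trans sdiff_subset)
  · intro d hd
    rcases hcase d hd with h1 | h2 | h0
    · simp only [if_pos h1]
      exact ⟨f1.scale zero_le_one (fun h => absurd h (m1ne d h1)),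
        f1'.scale zero_le_one (fun h => absurd h (m1ne d h1))⟩
    · simp only [if_neg (hs12 d h2), if_pos h2]
      exact ⟨f2.scale zero_le_one (fun h => absurd h (m2ne d h2)),
        f2'.scale zero_le_one (fun h => absurd h (m2ne d h2))⟩
    · simp only [if_neg (hs01 d h0).1, if_neg (hs01 d h0).2]
      exact ⟨hrest.scale zero_le_one (fun h => absurd h (n0ne d h0)), Fr.refl zero_le_one le_rfl⟩
  · intro d hd
    rcases hcase d hd with h1 | h2 | h0
    · left; simp only [if_pos h1, mem_union]
      exact ⟨Or.inl h1, hxy, Or.inl (by simp)⟩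
    · left; simp only [if_neg (hs12 d h2), if_pos h2, mem_union]
      exact ⟨Or.inr h2, hxy, Or.inr (by simp)⟩
    · right; simp only [if_neg (hs01 d h0).1, if_neg (hs01 d h0).2, mem_union]
      exact ⟨by have := hs01 d h0; tauto, by simp⟩
  · rw [hsum _ ((1 / (s0.card : ℝ)) • rest) ((1 / m1) • ℓ1 + (1 / m1) • ℓ1')
      ((1 / m2) • ℓ2 + (1 / m2) • ℓ2')
      (fun d h1 => by simp only [if_pos h1])
      (fun d h2 => by simp only [if_neg (hs12 d h2), if_pos h2])
      (fun d h0 => by simp only [if_neg (hs01 d h0).1, if_neg (hs01 d h0).2, add_zero])]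
    intro e
    have l0 := f0.load_nonneg e
    have l1 := f1.load_nonneg e
    have l1' := f1'.load_nonneg e
    have l2 := f2.load_nonneg e
    have l2' := f2'.load_nonneg e
    have lb := hβ0 e
    have hl := hle e
    have hi0 := ind_nonneg {i} e
    have hr0 : 0 ≤ rest e := hrest.load_nonneg e
    simp only [Pi.add_apply, Pi.smul_apply, smul_eq_mul, Pi.zero_apply] at *
    have t1 : (k1 : ℝ) * (1 / m1 * ℓ1 e + 1 / m1 * ℓ1' e) + g1 / m1 * (ℓ1 e + ℓ1' e) ≤
        ℓ1 e + ℓ1' e := by
      by_cases h0 : m1 = 0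
      · rw [h0]; simp; linarith
      · apply le_of_eq; rw [hg1]; field_simp; ring
    have t2 : (k2 : ℝ) * (1 / m2 * ℓ2 e + 1 / m2 * ℓ2' e) + g2 / m2 * (ℓ2 e + ℓ2' e) ≤
        ℓ2 e + ℓ2' e := by
      by_cases h0 : m2 = 0
      · rw [h0]; simp; linarith
      · apply le_of_eq; rw [hg2]; field_simp; ring
    have t0 : (s0.card : ℝ) * (1 / (s0.card : ℝ) * rest e) ≤ rest e := by
      by_cases h0 : (s0.card : ℝ) = 0
      · rw [h0]; simpa using hr0
      · apply le_of_eq; field_simp
    have t3 : 0 ≤ (m1 + m2) * ind {i} e := mul_nonneg (by linarith) hi0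
    have t4 : rest e = ℓ0 e + g1 / m1 * (ℓ1 e + ℓ1' e) + g2 / m2 * (ℓ2 e + ℓ2' e) +
        (g1 + g2) / μ * β e := by
      rw [hrestdef]; simp only [Pi.add_apply, Pi.smul_apply, smul_eq_mul]
    linarith
  · have hcU : (s1 ∪ s2).card = k1 + k2 := by
      rw [card_union_of_disjoint, hc1, hc2]
      rw [Finset.disjoint_left]; intro d h1 h2; exact hs12 d h2 h1
    rw [hcU]
    have l0 := f0.load_nonneg i
    have l1 := f1.load_nonneg i
    have l1' := f1'.load_nonneg i
    have l2 := f2.load_nonneg i
    have l2' := f2'.load_nonneg i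
    have hl := hle i
    simp only [Pi.add_apply, Pi.smul_apply, smul_eq_mul, Pi.zero_apply, ind, mem_singleton,
      if_true, mul_one] at *
    push_cast
    linarith
  · intro hf
    have hev : Conn a b i (a i) (b i) := by
      by_contra hne
      obtain ⟨e1, e2⟩ := hnotev hne
      exact hf (by rw [e1, e2, add_zero])
    have hne : m1 ≠ 0 ∨ m2 ≠ 0 := by
      by_contra hcon
      push Not at hcon
      exact hf (by rw [z1 hcon.1, z2 hcon.2, add_zero])
    refine ⟨?_, hxy, hev, ?_⟩
    · rw [← card_pos]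
      have : (0 : ℝ) < s.card := by
        rw [← hm]
        rcases hne with h | h
        · have := lt_of_le_of_ne m1n (Ne.symm h); linarith
        · have := lt_of_le_of_ne m2n (Ne.symm h); linarith
      exact_mod_cast this
    · rcases hne with h | h
      · have c1 := f1.conn h
        have c2 := f1'.conn h
        exact ⟨c1.symm, hev.trans c2⟩
      · have c1 := f2.conn h
        have c2 := f2'.conn h
        exact ⟨hev.trans c1.symm, c2⟩

omit [Fintype W] in
lemma evs_succ_of_conn {i : ℕ} (h : Conn a b i (a i) (b i)) :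
    evs a b (i + 1) = insert i (evs a b i) := by
  unfold evs; rw [range_add_one, filter_insert, if_pos h]

omit [Fintype W] in
lemma evs_succ_of_not {i : ℕ} (h : ¬ Conn a b i (a i) (b i)) :
    evs a b (i + 1) = evs a b i := by
  unfold evs; rw [range_add_one, filter_insert, if_neg h]

omit [Fintype W] in
lemma not_mem_evs (i : ℕ) : i ∉ evs a b i := by simp [evs]

omit [Fintype W] in
lemma mem_evs {i j : ℕ} : j ∈ evs a b i ↔ j < i ∧ Conn a b j (a j) (b j) := by simp [evs]

set_option maxHeartbeats 1000000 in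
theorem rounding {m t : ℕ}
    (H : ∀ i < m, ∀ x : W, (univ.filter fun y => Active a b m i y ∧ Conn a b i x y).card ≤ t)
    (L : ℕ) (i : ℕ) : ∀ (_ : i ≤ m) (D : Type) [Fintype D] (p q : D → W) (ℓ : D → ℕ → ℝ)
    (β : ℕ → ℕ → ℝ),
    (∀ d, p d = q d ∨ (Active a b m i (p d) ∧ Active a b m i (q d))) →
    (∀ d, Fr a b i (p d) (q d) 1 (ℓ d)) →
    (∀ j ∈ evs a b i, Fr a b j (a j) (b j) (2 * (t : ℝ) ^ 2 + 1) (β j)) →
    (∀ e < i, ∑ d, ℓ d e + ∑ j ∈ evs a b i, β j e ≤ L) →
    ∃ (J : D → Finset ℕ) (B : ℕ → Finset ℕ), (∀ d, Join a b i (p d) (q d) (J d)) ∧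
      (∀ j ∈ evs a b i, Join a b j (a j) (b j) (B j)) ∧
      ∀ e < i, (univ.filter fun d => e ∈ J d).card + ((evs a b i).filter fun j => e ∈ B j).card
        ≤ L := by
  induction i with
  | zero =>
    intro _ D _ p q ℓ β _ hfr _ _
    have : ∀ d, ∃ z, Join a b 0 (p d) (q d) z := fun d => (hfr d).conn one_ne_zero
    choose J hJ using this
    refine ⟨J, fun _ => ∅, hJ, ?_, ?_⟩
    · intro j hj; rw [mem_evs] at hj; omega
    · intro e he; omega
  | succ i ih =>
    intro him D _ p q ℓ β hgood hfr hβ hload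
    set μ : ℝ := 2 * (t : ℝ) ^ 2 + 1 with hμdef
    have hμ : 0 < μ := by positivity
    set βi : ℕ → ℝ := if Conn a b i (a i) (b i) then β i else 0 with hβi
    have hβi1 : Conn a b i (a i) (b i) → Fr a b i (a i) (b i) μ βi := by
      intro h
      rw [hβi, if_pos h]
      exact hβ i (by rw [mem_evs]; exact ⟨by omega, h⟩)
    have hβi0 : 0 ≤ βi := by
      by_cases h : Conn a b i (a i) (b i)
      · exact (hβi1 h).load_nonneg
      · rw [hβi, if_neg h]
    -- the types
    set s : W × W → Finset D := fun τ => univ.filter fun d => (p d, q d) = τ with hs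
    have hsmem : ∀ τ d, d ∈ s τ ↔ (p d, q d) = τ := by intro τ d; simp [hs]
    have hty : ∀ τ : W × W, Fr a b (i + 1) τ.1 τ.2 ((s τ).card : ℝ) (∑ d ∈ s τ, ℓ d) := by
      intro τ
      refine Fr.sum (s τ) ℓ fun d hd => ?_
      have := (hsmem τ d).1 hd
      rw [← this]; exact hfr d
    have hstep := fun τ : W × W => type_step hμ hβi0 hβi1 (s τ) τ.1 τ.2 _ (hty τ)
    choose q1 p2 ℓ1 ℓ2 U f hU hF hC hS hUi hf0 hf2 hfne using hstep
    set ty : D → W × W := fun d => (p d, q d) with hty'
    have hmem : ∀ d, d ∈ s (ty d) := fun d => (hsmem _ _).2 rfl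
    set Q1 : D → W := fun d => q1 (ty d) d with hQ1
    set P2 : D → W := fun d => p2 (ty d) d with hP2
    set l1 : D → ℕ → ℝ := fun d => ℓ1 (ty d) d with hl1
    set l2 : D → ℕ → ℝ := fun d => ℓ2 (ty d) d with hl2
    set u : D → Prop := fun d => d ∈ U (ty d) with hu
    have hfib : ∀ g : D → ℝ, ∑ τ : W × W, ∑ d ∈ s τ, g d = ∑ d, g d := by
      intro g
      exact Finset.sum_fiberwise univ (fun d => (p d, q d)) g
    have hgood' : ∀ d, p d ≠ q d → Active a b m i (p d) ∧ Active a b m i (q d) := by
      intro d hd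
      rcases hgood d with h | h
      · exact absurd h hd
      · exact ⟨h.1.mono (Nat.le_succ i), h.2.mono (Nat.le_succ i)⟩
    have hiA : Active a b m i (a i) := active_a (by omega)
    have hiB : Active a b m i (b i) := active_b (by omega)
    -- total leftover
    have hfsum : ∑ τ, f τ ≤ 2 * (t : ℝ) ^ 2 := by
      set X := univ.filter fun y => Active a b m i y ∧ Conn a b i (a i) y with hX
      have hXt : X.card ≤ t := H i (by omega) (a i)
      have h1 : ∑ τ, f τ = ∑ τ ∈ X ×ˢ X, f τ := by
        symm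
        refine Finset.sum_subset (subset_univ _) ?_
        intro τ _ hτ
        by_contra hne
        obtain ⟨⟨d, hd⟩, hxy, hev, c1, c2⟩ := hfne τ hne
        have hd' := (hsmem τ d).1 hd
        have e1 : p d = τ.1 := by rw [← hd']
        have e2 : q d = τ.2 := by rw [← hd']
        have := hgood' d (by rw [e1, e2]; exact hxy)
        rw [e1, e2] at this
        apply hτ
        rw [mem_product]
        simp only [hX, mem_filter, mem_univ, true_and]
        exact ⟨⟨this.1, c1⟩, ⟨this.2, c2⟩⟩
      rw [h1]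
      calc ∑ τ ∈ X ×ˢ X, f τ ≤ ∑ τ ∈ X ×ˢ X, (2 : ℝ) := Finset.sum_le_sum fun τ _ => hf2 τ
        _ = 2 * (X.card : ℝ) ^ 2 := by
          rw [Finset.sum_const, card_product, nsmul_eq_mul]; push_cast; ring
        _ ≤ 2 * (t : ℝ) ^ 2 := by
          have : (X.card : ℝ) ≤ t := by exact_mod_cast hXt
          gcongr
    have hfnn : 0 ≤ ∑ τ, f τ := Finset.sum_nonneg fun τ _ => hf0 τ
    -- load bound of the new demands
    have hnew : ∀ e, ∑ d, l1 d e + ∑ d, l2 d e ≤ ∑ d, ℓ d e + (2 * (t : ℝ) ^ 2) / μ * βi e := by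
      intro e
      rw [← Finset.sum_add_distrib, ← hfib]
      have h1 : ∀ τ, ∑ d ∈ s τ, (l1 d e + l2 d e) ≤ ∑ d ∈ s τ, ℓ d e + f τ / μ * βi e := by
        intro τ
        have := hS τ e
        simp only [Finset.sum_apply, Pi.add_apply, Pi.smul_apply, smul_eq_mul] at this
        refine le_trans (le_of_eq ?_) this
        refine Finset.sum_congr rfl fun d hd => ?_
        have hd' := (hsmem τ d).1 hd
        simp only [hl1, hl2, hty', hd']
      calc _ ≤ ∑ τ, (∑ d ∈ s τ, ℓ d e + f τ / μ * βi e) := Finset.sum_le_sum fun τ _ => h1 τ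
        _ = ∑ d, ℓ d e + (∑ τ, f τ) / μ * βi e := by
          rw [Finset.sum_add_distrib, hfib, ← Finset.sum_mul, ← Finset.sum_div]
        _ ≤ _ := by
          have := hβi0 e
          simp only [Pi.zero_apply] at this
          gcongr
    have hβsum : ∀ e, ∑ j ∈ evs a b (i + 1), β j e = ∑ j ∈ evs a b i, β j e + βi e := by
      intro e
      by_cases h : Conn a b i (a i) (b i)
      · rw [evs_succ_of_conn h, sum_insert (not_mem_evs i), hβi, if_pos h]; ring
      · rw [evs_succ_of_not h, hβi, if_neg h]; simp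
    obtain ⟨J, B, hJ, hB, hJB⟩ := ih (by omega) (D ⊕ D ⊕ Unit)
      (Sum.elim p (Sum.elim P2 fun _ => a i))
      (Sum.elim Q1 (Sum.elim q fun _ => if Conn a b i (a i) (b i) then b i else a i))
      (Sum.elim l1 (Sum.elim l2 fun _ => (1 / μ) • βi)) β (by
        rintro (d | d | ⟨⟩)
        · simp only [Sum.elim_inl]
          rcases hC (ty d) d (hmem d) with ⟨_, hne, h | h⟩ | ⟨_, h1, h2⟩
          · right; simp only [hQ1]; rw [h.1]; exact ⟨(hgood' d hne).1, hiA⟩
          · right; simp only [hQ1]; rw [h.1]; exact ⟨(hgood' d hne).1, hiB⟩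
          · by_cases hne : p d = q d
            · left; simp only [hQ1]; rw [h1]; exact hne
            · right; simp only [hQ1]; rw [h1]; exact hgood' d hne
        · simp only [Sum.elim_inr, Sum.elim_inl]
          rcases hC (ty d) d (hmem d) with ⟨_, hne, h | h⟩ | ⟨_, h1, h2⟩
          · right; simp only [hP2]; rw [h.2]; exact ⟨hiB, (hgood' d hne).2⟩
          · right; simp only [hP2]; rw [h.2]; exact ⟨hiA, (hgood' d hne).2⟩
          · left; simp only [hP2]; rw [h2]
        · simp only [Sum.elim_inr]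
          split_ifs
          · right; exact ⟨hiA, hiB⟩
          · left; rfl) (by
        rintro (d | d | ⟨⟩)
        · exact (hF (ty d) d (hmem d)).1
        · exact (hF (ty d) d (hmem d)).2
        · simp only [Sum.elim_inr]
          split_ifs with h
          · exact (hβi1 h).scale zero_le_one (fun h => absurd h hμ.ne')
          · exact Fr.refl zero_le_one (smul_nonneg (by positivity) hβi0)) (by
        intro j hj
        refine hβ j ?_
        rw [mem_evs] at hj ⊢; exact ⟨by omega, hj.2⟩) (by
        intro e he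
        rw [Fintype.sum_sum_type, Fintype.sum_sum_type]
        simp only [Sum.elim_inl, Sum.elim_inr, Finset.univ_unique, Finset.sum_singleton,
          Pi.smul_apply, smul_eq_mul]
        have h1 := hload e (by omega)
        rw [hβsum] at h1
        have h2 := hnew e
        have h3 : (2 * (t : ℝ) ^ 2) / μ * βi e + 1 / μ * βi e = βi e := by
          rw [← add_mul, ← add_div, ← hμdef, div_self hμ.ne', one_mul]
        linarith)
    -- assemble
    set JJ : D → Finset ℕ := fun d =>
      symmDiff (symmDiff (J (Sum.inl d)) (J (Sum.inr (Sum.inl d)))) (if u d then {i} else ∅)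
      with hJJ
    set BB : ℕ → Finset ℕ := Function.update B i (J (Sum.inr (Sum.inr ()))) with hBB
    have hJ1 : ∀ d, Join a b i (p d) (Q1 d) (J (Sum.inl d)) := fun d => hJ (Sum.inl d)
    have hJ2 : ∀ d, Join a b i (P2 d) (q d) (J (Sum.inr (Sum.inl d))) :=
      fun d => hJ (Sum.inr (Sum.inl d))
    have hnot1 : ∀ d, i ∉ J (Sum.inl d) := fun d h => by simpa using (hJ1 d).1 h
    have hnot2 : ∀ d, i ∉ J (Sum.inr (Sum.inl d)) := fun d h => by simpa using (hJ2 d).1 h
    have hnot3 : i ∉ J (Sum.inr (Sum.inr ())) := fun h => by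
      simpa using (hJ (Sum.inr (Sum.inr ()))).1 h
    refine ⟨JJ, BB, ?_, ?_, ?_⟩
    · intro d
      constructor
      · refine symmDiff_subset (symmDiff_subset ?_ ?_) ?_
        · exact (hJ1 d).1.trans (range_mono (Nat.le_succ i))
        · exact (hJ2 d).1.trans (range_mono (Nat.le_succ i))
        · split_ifs <;> simp
      · rcases hC (ty d) d (hmem d) with ⟨hu1, _, h | h⟩ | ⟨hu1, h1, h2⟩
        · have hu1' : u d := hu1
          simp only [hJJ]
          rw [if_pos hu1', bd_symmDiff, bd_symmDiff, (hJ1 d).2, (hJ2 d).2, bd_singleton]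
          simp only [hQ1, hP2]; rw [h.1, h.2]
          calc _ = dl (p d) + dl (q d) + (dl (a i) + dl (a i)) + (dl (b i) + dl (b i)) := by abel
            _ = _ := by rw [self_add_self, self_add_self, add_zero, add_zero]
        · have hu1' : u d := hu1
          simp only [hJJ]
          rw [if_pos hu1', bd_symmDiff, bd_symmDiff, (hJ1 d).2, (hJ2 d).2, bd_singleton]
          simp only [hQ1, hP2]; rw [h.1, h.2]
          calc _ = dl (p d) + dl (q d) + (dl (a i) + dl (a i)) + (dl (b i) + dl (b i)) := by abel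
            _ = _ := by rw [self_add_self, self_add_self, add_zero, add_zero]
        · have hu1' : ¬ u d := hu1
          simp only [hJJ]
          rw [if_neg hu1', bd_symmDiff, bd_symmDiff, (hJ1 d).2, (hJ2 d).2, bd_empty, add_zero]
          simp only [hQ1, hP2]; rw [h1, h2]
          calc _ = dl (p d) + dl (q d) + (dl (q d) + dl (q d)) := by abel
            _ = _ := by rw [self_add_self, add_zero]
    · intro j hj
      rw [mem_evs] at hj
      by_cases hji : j = i
      · subst hji
        rw [hBB, Function.update_self]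
        have := hJ (Sum.inr (Sum.inr ()))
        simpa only [Sum.elim_inr, if_pos hj.2] using this
      · rw [hBB, Function.update_of_ne hji]
        exact hB j (by rw [mem_evs]; exact ⟨by omega, hj.2⟩)
    · intro e he
      by_cases hei : e = i
      · subst hei
        have h1 : (univ.filter fun d => e ∈ JJ d) = univ.filter fun d => u d := by
          ext d
          simp only [mem_filter, mem_univ, true_and, hJJ]
          rw [Finset.mem_symmDiff, Finset.mem_symmDiff]
          have n1 := hnot1 d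
          have n2 := hnot2 d
          by_cases hud : u d
          · simp [hud, n1, n2]
          · simp [hud, n1, n2]
        have h2 : ((evs a b (e + 1)).filter fun j => e ∈ BB j) = ∅ := by
          rw [Finset.filter_eq_empty_iff]
          intro j hj hje
          rw [mem_evs] at hj
          by_cases hji : j = e
          · subst hji
            rw [hBB, Function.update_self] at hje
            exact hnot3 hje
          · rw [hBB, Function.update_of_ne hji] at hje
            have := (hB j (by rw [mem_evs]; exact ⟨by omega, hj.2⟩)).1 hje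
            rw [mem_range] at this; omega
        rw [h1, h2, card_empty, add_zero]
        have h3 : ((univ.filter fun d => u d).card : ℝ) ≤ L := by
          have h4 : ((univ.filter fun d => u d).card : ℝ) = ∑ d : D, if u d then 1 else 0 := by
            rw [Finset.sum_boole]
          rw [h4, ← hfib]
          have h5 : ∀ τ, ∑ d ∈ s τ, (if u d then (1 : ℝ) else 0) ≤ ∑ d ∈ s τ, ℓ d e := by
            intro τ
            have h6 : ∑ d ∈ s τ, (if u d then (1 : ℝ) else 0) = ((U τ).card : ℝ) := by
              rw [Finset.sum_boole]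
              congr 2
              ext d
              rw [mem_filter, hsmem]
              constructor
              · rintro ⟨h, h'⟩
                simp only [hu, hty'] at h'
                rwa [h] at h'
              · intro h
                have h7 := (hsmem τ d).1 (hU τ h)
                refine ⟨h7, ?_⟩
                simp only [hu, hty']
                rwa [h7]
            rw [h6]
            have := hUi τ
            rwa [Finset.sum_apply] at this
          calc _ ≤ ∑ τ, ∑ d ∈ s τ, ℓ d e := Finset.sum_le_sum fun τ _ => h5 τ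
            _ = ∑ d, ℓ d e := hfib _
            _ ≤ L := by
              have h8 := hload e (by omega)
              have h9 : 0 ≤ ∑ j ∈ evs a b (e + 1), β j e := Finset.sum_nonneg fun j hj =>
                (hβ j hj).load_nonneg e
              linarith
        exact_mod_cast h3
      · have heI : e < i := by omega
        have h0 := hJB e heI
        rw [Finset.card_filter, Fintype.sum_sum_type, Fintype.sum_sum_type] at h0
        simp only [Finset.univ_unique, Finset.sum_singleton] at h0
        have h1 : (univ.filter fun d => e ∈ JJ d).card ≤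
            ∑ d : D, (if e ∈ J (Sum.inl d) then 1 else 0) +
            ∑ d : D, (if e ∈ J (Sum.inr (Sum.inl d)) then 1 else 0) := by
          rw [Finset.card_filter, ← Finset.sum_add_distrib]
          refine Finset.sum_le_sum fun d _ => ?_
          by_cases hd : e ∈ JJ d
          · rw [if_pos hd]
            simp only [hJJ] at hd
            rw [Finset.mem_symmDiff, Finset.mem_symmDiff] at hd
            have hni : e ∉ (if u d then ({i} : Finset ℕ) else ∅) := by
              split_ifs <;> simp [hei]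
            by_cases c1 : e ∈ J (Sum.inl d)
            · rw [if_pos c1]; exact Nat.le_add_right _ _
            · by_cases c2 : e ∈ J (Sum.inr (Sum.inl d))
              · rw [if_pos c2]; exact Nat.le_add_left _ _
              · exfalso
                rcases hd with ⟨⟨h, _⟩ | ⟨h, _⟩, _⟩ | ⟨h, _⟩
                · exact c1 h
                · exact c2 h
                · exact hni h
          · rw [if_neg hd]; exact Nat.zero_le _
        have h2 : ((evs a b (i + 1)).filter fun j => e ∈ BB j).card ≤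
            (if e ∈ J (Sum.inr (Sum.inr ())) then 1 else 0) +
            ((evs a b i).filter fun j => e ∈ B j).card := by
          have h3 : ((evs a b i).filter fun j => e ∈ BB j) =
              (evs a b i).filter fun j => e ∈ B j := by
            refine Finset.filter_congr fun j hj => ?_
            have : j ≠ i := fun h => not_mem_evs i (h ▸ hj)
            rw [hBB, Function.update_of_ne this]
          by_cases hev : Conn a b i (a i) (b i)
          · rw [evs_succ_of_conn hev, filter_insert]
            have h4 : BB i = J (Sum.inr (Sum.inr ())) := by rw [hBB, Function.update_self]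
            rw [h4]
            split_ifs with h5
            · refine (card_insert_le _ _).trans ?_
              rw [h3]; omega
            · rw [h3]; omega
          · rw [evs_succ_of_not hev, h3]; omega
        have h3 : (default : Unit) = () := rfl
        rw [h3] at h0
        omega

/-- **Main Lemma.** -/
theorem main_lemma {m t : ℕ} (ht : 1 ≤ t)
    (H : ∀ i < m, ∀ x : W, (univ.filter fun y => Active a b m i y ∧ Conn a b i x y).card ≤ t) :
    ∃ B : ℕ → Finset ℕ, (∀ j ∈ evs a b m, Join a b j (a j) (b j) (B j)) ∧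
      ∀ e < m, ((evs a b m).filter fun j => e ∈ B j).card ≤ (2 * t ^ 2 + 1) * (t - 1) := by
  obtain ⟨ℓ, h1, h2⟩ := fractional ht H
  obtain ⟨J, B, -, hB, hJB⟩ := rounding H ((2 * t ^ 2 + 1) * (t - 1)) m le_rfl Empty
    (fun d => d.elim) (fun d => d.elim) (fun d => d.elim)
    (fun j => (2 * (t : ℝ) ^ 2 + 1) • ℓ j) (fun d => d.elim) (fun d => d.elim) (by
      intro j hj
      have := (h1 j hj).smul (s := 2 * (t : ℝ) ^ 2 + 1) (by positivity)
      rwa [mul_one] at this) (by
      intro e he
      have := h2 e he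
      simp only [Finset.univ_eq_empty, Finset.sum_empty, zero_add, Pi.smul_apply, smul_eq_mul,
        ← Finset.mul_sum]
      push_cast [Nat.cast_sub ht]
      gcongr)
  refine ⟨B, hB, fun e he => ?_⟩
  have := hJB e he
  omega

end Round

end Pool.MP_35885f
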