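import Pool.Agent.Lib.MP_35885f_co.Frac

/-!
# Independent rounding of the order-adapted fractional joins (derandomised)
-/

open Finset

namespace Pool.MP_35885f

open scoped Classical

section RoundLog

variable {W : Type} [DecidableEq W] {a b : ℕ → W}

/-- The average of a nonnegative functional over the joins of a fractional join is at most its
value at the load. -/
lemma Fr.le_of_forall {i : ℕ} {x y : W} {r : ℝ} {ℓ : ℕ → ℝ} (h : Fr a b i x y r ℓ)
    (R : Finset ℕ) (c : ℕ → ℝ) (hc : ∀ e ∈ R, 0 ≤ c e) (M : ℝ)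
    (hM : ∀ z, Join a b i x y z → M ≤ ∑ e ∈ R, c e * ind z e) :
    r * M ≤ ∑ e ∈ R, c e * ℓ e := by
  induction h with
  | zero ℓ h =>
    rw [zero_mul]
    exact Finset.sum_nonneg fun e he => mul_nonneg (hc e he) (h e)
  | cons r ℓ c' z h hc' hz ih =>
    have h1 := hM z hz
    have h2 : ∑ e ∈ R, c e * (ℓ + c' • ind z) e =
        ∑ e ∈ R, c e * ℓ e + c' * ∑ e ∈ R, c e * ind z e := by
      simp only [Pi.add_apply, Pi.smul_apply, smul_eq_mul, mul_add, Finset.sum_add_distrib,
        Finset.mul_sum]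
      congr 1
      exact Finset.sum_congr rfl fun e _ => by ring
    rw [h2, add_mul]
    have := mul_le_mul_of_nonneg_left h1 hc'
    linarith

/-- Some join costs at most the average. -/
lemma Fr.exists_join {i : ℕ} {x y : W} {ℓ : ℕ → ℝ} (h : Fr a b i x y 1 ℓ)
    (R : Finset ℕ) (c : ℕ → ℝ) (hc : ∀ e ∈ R, 0 ≤ c e) :
    ∃ z, Join a b i x y z ∧ ∑ e ∈ R, c e * ind z e ≤ ∑ e ∈ R, c e * ℓ e := by
  obtain ⟨z0, hz0⟩ := h.conn one_ne_zero
  obtain ⟨z, hz, hmin⟩ := Finset.exists_min_image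
    ((range i).powerset.filter (fun z => Join a b i x y z)) (fun z => ∑ e ∈ R, c e * ind z e)
    ⟨z0, by rw [mem_filter, mem_powerset]; exact ⟨hz0.1, hz0⟩⟩
  rw [mem_filter] at hz
  refine ⟨z, hz.2, ?_⟩
  have := h.le_of_forall R c hc (∑ e ∈ R, c e * ind z e) (fun z' hz' => hmin z' (by
    rw [mem_filter, mem_powerset]; exact ⟨hz'.1, hz'⟩))
  linarith

/-- Greedy choice of all joins (method of conditional expectations). -/
lemma greedy {ℓ : ℕ → ℕ → ℝ} (R S : Finset ℕ)
    (hS : ∀ j ∈ S, Fr a b j (a j) (b j) 1 (ℓ j)) :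
    ∀ c : ℕ → ℝ, (∀ e ∈ R, 0 ≤ c e) → ∃ B : ℕ → Finset ℕ,
      (∀ j ∈ S, Join a b j (a j) (b j) (B j)) ∧
      ∑ e ∈ R, c e * 2 ^ (S.filter fun j => e ∈ B j).card ≤
        ∑ e ∈ R, c e * ∏ j ∈ S, (1 + ℓ j e) := by
  induction S using Finset.induction_on with
  | empty => intro c _; exact ⟨fun _ => ∅, by simp, by simp⟩
  | insert j S hj ih =>
    intro c hc
    have hℓ : ∀ j' ∈ insert j S, ∀ e, 0 ≤ 1 + ℓ j' e := fun j' hj' e => by
      have := (hS j' hj').load_nonneg e
      simp only [Pi.zero_apply] at this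
      linarith
    have hprod : ∀ e, 0 ≤ ∏ j' ∈ S, (1 + ℓ j' e) := fun e =>
      Finset.prod_nonneg fun j' hj' => hℓ j' (mem_insert_of_mem hj') e
    obtain ⟨z, hz, hz2⟩ := (hS j (mem_insert_self _ _)).exists_join R
      (fun e => c e * ∏ j' ∈ S, (1 + ℓ j' e)) (fun e he => mul_nonneg (hc e he) (hprod e))
    obtain ⟨B, hB, hB2⟩ := ih (fun j' hj' => hS j' (mem_insert_of_mem hj'))
      (fun e => c e * (1 + ind z e)) (fun e he => mul_nonneg (hc e he) (by
        have := ind_nonneg z e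
        simp only [Pi.zero_apply] at this
        linarith))
    have hne : ∀ j' ∈ S, j' ≠ j := fun j' hj' h => hj (h ▸ hj')
    refine ⟨Function.update B j z, ?_, ?_⟩
    · intro j' hj'
      by_cases h : j' = j
      · subst h; rw [Function.update_self]; exact hz
      · rw [Function.update_of_ne h]; exact hB j' ((mem_insert.1 hj').resolve_left h)
    · have h1 : ∀ e ∈ R, c e * 2 ^ ((insert j S).filter
          fun j' => e ∈ Function.update B j z j').card =
          c e * (1 + ind z e) * 2 ^ (S.filter fun j' => e ∈ B j').card := by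
        intro e _
        have h2 : (S.filter fun j' => e ∈ Function.update B j z j') =
            S.filter fun j' => e ∈ B j' :=
          Finset.filter_congr fun j' hj' => by rw [Function.update_of_ne (hne j' hj')]
        rw [filter_insert, Function.update_self, h2]
        have h3 : j ∉ S.filter fun j' => e ∈ B j' := fun h => hj (mem_filter.1 h).1
        unfold ind
        split_ifs with h4
        · rw [card_insert_of_notMem h3, pow_succ]; ring
        · ring
      rw [Finset.sum_congr rfl h1]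
      refine hB2.trans ?_
      have h5 : ∑ e ∈ R, c e * (1 + ind z e) * ∏ j' ∈ S, (1 + ℓ j' e) =
          ∑ e ∈ R, c e * ∏ j' ∈ S, (1 + ℓ j' e) +
          ∑ e ∈ R, (c e * ∏ j' ∈ S, (1 + ℓ j' e)) * ind z e := by
        rw [← Finset.sum_add_distrib]
        exact Finset.sum_congr rfl fun e _ => by ring
      have h6 : ∑ e ∈ R, c e * ∏ j' ∈ insert j S, (1 + ℓ j' e) =
          ∑ e ∈ R, c e * ∏ j' ∈ S, (1 + ℓ j' e) +
          ∑ e ∈ R, (c e * ∏ j' ∈ S, (1 + ℓ j' e)) * ℓ j e := by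
        rw [← Finset.sum_add_distrib]
        refine Finset.sum_congr rfl fun e _ => ?_
        rw [Finset.prod_insert hj]; ring
      rw [h5, h6]
      linarith

variable [Fintype W]

lemma exp_bound (k : ℕ) : Real.exp (2 * (k : ℝ) + 1) ≤ 2 ^ (3 * k + 2) := by
  have h1 : Real.exp (2 * (k : ℝ) + 1) = Real.exp 1 ^ (2 * k + 1) := by
    rw [← Real.exp_nat_mul]; congr 1; push_cast; ring
  have h2 : Real.exp 1 ≤ 2.72 := by
    have := Real.exp_one_lt_d9; linarith
  have h3 : (0 : ℝ) ≤ Real.exp 1 := (Real.exp_pos 1).le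
  rw [h1]
  calc Real.exp 1 ^ (2 * k + 1) ≤ (2.72 : ℝ) ^ (2 * k + 1) := by gcongr
    _ = (2.72 ^ 2) ^ k * 2.72 := by rw [pow_succ, pow_mul]
    _ ≤ (2 ^ 3) ^ k * 4 := by gcongr <;> norm_num
    _ = 2 ^ (3 * k + 2) := by rw [← pow_mul, pow_add]; norm_num

/-- Independent rounding: all loads on the rows `R` are at most `3 k + 2 + log₂ |R|`. -/
theorem main_log {m k N : ℕ}
    (H : ∀ i < m, ∀ x : W,
      (univ.filter fun y => Active a b m i y ∧ Conn a b i x y).card ≤ 2 * (k + 1))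
    (R : Finset ℕ) (hR : R ⊆ range m) (hN : R.card ≤ N) :
    ∃ B : ℕ → Finset ℕ, (∀ j ∈ evs a b m, Join a b j (a j) (b j) (B j)) ∧
      ∀ e ∈ R, ((evs a b m).filter fun j => e ∈ B j).card ≤ 3 * k + 2 + Nat.log 2 N := by
  obtain ⟨ℓ, h1, h2⟩ := fractional (by omega) H
  obtain ⟨B, hB, hB2⟩ := greedy R (evs a b m) h1 (fun _ => 1) (fun _ _ => zero_le_one)
  refine ⟨B, hB, fun e he => ?_⟩
  have h3 : ∑ e ∈ R, (1 : ℝ) * ∏ j ∈ evs a b m, (1 + ℓ j e) ≤ N * 2 ^ (3 * k + 2) := by
    have h4 : ∀ e ∈ R, (1 : ℝ) * ∏ j ∈ evs a b m, (1 + ℓ j e) ≤ 2 ^ (3 * k + 2) := by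
      intro e he
      rw [one_mul]
      calc ∏ j ∈ evs a b m, (1 + ℓ j e) ≤ ∏ j ∈ evs a b m, Real.exp (ℓ j e) := by
            refine Finset.prod_le_prod (fun j hj => ?_) (fun j _ => ?_)
            · have := (h1 j hj).load_nonneg e
              simp only [Pi.zero_apply] at this
              linarith
            · rw [add_comm]; exact Real.add_one_le_exp _
        _ = Real.exp (∑ j ∈ evs a b m, ℓ j e) := (Real.exp_sum _ _).symm
        _ ≤ Real.exp (2 * (k : ℝ) + 1) := by
            refine Real.exp_le_exp.2 ((h2 e (mem_range.1 (hR he))).trans (le_of_eq ?_))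
            push_cast; ring
        _ ≤ _ := exp_bound k
    calc _ ≤ ∑ e ∈ R, (2 : ℝ) ^ (3 * k + 2) := Finset.sum_le_sum h4
      _ = R.card * 2 ^ (3 * k + 2) := by rw [Finset.sum_const, nsmul_eq_mul]
      _ ≤ _ := by
        have : (R.card : ℝ) ≤ N := by exact_mod_cast hN
        gcongr
  have h4 : (2 : ℝ) ^ ((evs a b m).filter fun j => e ∈ B j).card ≤ N * 2 ^ (3 * k + 2) := by
    refine le_trans ?_ (hB2.trans h3)
    have h5 := Finset.single_le_sum (f := fun e => (1 : ℝ) *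
      2 ^ ((evs a b m).filter fun j => e ∈ B j).card) (fun e _ => by positivity) he
    simpa using h5
  have h6 : N < 2 ^ (Nat.log 2 N + 1) := Nat.lt_pow_succ_log_self (by norm_num) N
  have h7 : (2 : ℝ) ^ ((evs a b m).filter fun j => e ∈ B j).card <
      2 ^ (Nat.log 2 N + 1 + (3 * k + 2)) := by
    refine h4.trans_lt ?_
    rw [pow_add 2 (Nat.log 2 N + 1)]
    have : (N : ℝ) < 2 ^ (Nat.log 2 N + 1) := by exact_mod_cast h6
    gcongr
  have h8 := (pow_lt_pow_iff_right₀ (one_lt_two : (1 : ℝ) < 2)).1 h7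
  omega

end RoundLog

end Pool.MP_35885f
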